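import Pool.Agent.Lib.MP_98022b_nd.Pcc

/-!
# The bad thresholds are rare
-/

set_option autoImplicit false

open Set Filter Topology

namespace Pool.Agent.BG

open Pool.Agent.ND

/-- Fibre count. -/
theorem count_fiber' {V : Type} [Fintype V] [DecidableEq V] {N c : ℕ} (B : Finset (V → Fin N))
    (k : V) (h : ∀ v : V → Fin N,
      (Finset.univ.filter fun x : Fin N => Function.update v k x ∈ B).card ≤ c) :
    B.card * N ≤ c * N ^ Fintype.card V := by
  classical
  -- pairs (v, x) with update v k x ∈ B
  have h1 : (Finset.univ.filter fun p : (V → Fin N) × Fin N =>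
      Function.update p.1 k p.2 ∈ B).card ≤ c * N ^ Fintype.card V := by
    have h2 : (Finset.univ.filter fun p : (V → Fin N) × Fin N => Function.update p.1 k p.2 ∈ B) =
        Finset.univ.biUnion fun v : V → Fin N =>
          (Finset.univ.filter fun x : Fin N => Function.update v k x ∈ B).image fun x => (v, x) := by
      ext ⟨v, x⟩
      simp
    rw [h2]
    refine Finset.card_biUnion_le.trans ?_
    refine (Finset.sum_le_sum fun v _ => Finset.card_image_le.trans (h v)).trans ?_
    simp [mul_comm]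
  refine le_trans ?_ h1
  have h0 : B.card * N = (B ×ˢ (Finset.univ : Finset (Fin N))).card := by
    rw [Finset.card_product, Finset.card_univ, Fintype.card_fin]
  rw [h0]
  refine Finset.card_le_card_of_injOn
    (fun p : (V → Fin N) × Fin N => (Function.update p.1 k p.2, p.1 k)) ?_ ?_
  · rintro ⟨v, x⟩ hp
    have hv : v ∈ B := (Finset.mem_product.1 hp).1
    refine Finset.mem_coe.2 (Finset.mem_filter.2 ⟨Finset.mem_univ _, ?_⟩)
    simpa using hv
  · rintro ⟨v, x⟩ - ⟨v', x'⟩ - hvv
    have e1 : Function.update v k x = Function.update v' k x' := congrArg Prod.fst hvv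
    have e2 : v k = v' k := congrArg Prod.snd hvv
    have e3 : x = x' := by
      have := congrFun e1 k
      simpa using this
    refine Prod.ext (funext fun j => ?_) e3
    by_cases hj : j = k
    · rw [hj]; exact e2
    · have := congrFun e1 j
      simpa [hj] using this

/-- The bad thresholds are rare. The function `f k` has the threshold number `v (o k)`. -/
theorem bad_count {I V : Type} [Fintype I] [Fintype V] [DecidableEq V] {N : ℕ} {T : ℝ}
    {f : I → ℝ → ℝ} (o : I → V) (hT : 0 ≤ T)
    (hlip : ∀ k, ∀ s ∈ Icc 0 T, ∀ s' ∈ Icc 0 T, |f k s - f k s'| ≤ |s - s'|)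
    (hconv : ∀ k, ConvexOn ℝ (Icc 0 T) (f k)) {δ e w : ℝ} (hδ : 0 < δ) (he : 0 ≤ e)
    (hw1 : e + 5 * δ ≤ w) (hw2 : 2 * e * T ≤ (w - e) * δ) (rv : I → Fin N → ℝ)
    (sep : ∀ k j j', j ≠ j' → 2 * w ≤ |rv k j - rv k j'|)
    (hsame : ∀ k k', o k = o k' → (f k = f k' ∧ rv k = rv k') ∨
      ∀ x, ∀ s ∈ Icc 0 T, ∀ s' ∈ Icc 0 T, |f k s - rv k x| < e → |f k' s' - rv k' x| < e →
        4 * δ ≤ |s - s'|) :
    ∃ B : Finset (V → Fin N),
      B.card * N ≤ 5 * (Fintype.card I + 1) ^ 2 * N ^ Fintype.card V ∧
      ∀ v, v ∉ B → ∀ s ∈ Icc 0 T, ∀ s' ∈ Icc 0 T, ∀ k k', |f k s - rv k (v (o k))| < e →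
        |f k' s' - rv k' (v (o k'))| < e → |s - s'| ≤ δ ∨ 4 * δ ≤ |s - s'| := by
  classical
  obtain ⟨n, hn⟩ : ∃ n : ℕ, n = Fintype.card I := ⟨_, rfl⟩
  -- the concave functions
  obtain ⟨t, ht⟩ : ∃ t : ℕ → ℝ, t = fun i => if i = 0 then 0 else T := ⟨_, rfl⟩
  have ht0 : t 0 = 0 := by rw [ht]; simp
  have ht1 : t 1 = T := by rw [ht]; simp
  have hP : ∀ k, Pcc 1 T 1 t fun s => -f k s := by
    intro k
    refine ⟨fun i hi => ?_, ht0, ht1, fun s hs s' hs' => ?_, fun i hi => ?_⟩
    · obtain rfl : i = 0 := by omega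
      rw [ht0, ht1]
      exact hT
    · have h1 := hlip k s hs s' hs'
      have h2 : -f k s - -f k s' = -(f k s - f k s') := by ring
      rw [h2, abs_neg, one_mul]
      exact h1
    · obtain rfl : i = 0 := by omega
      rw [ht0, zero_add, ht1]
      exact (hconv k).neg
  obtain ⟨g, hg⟩ : ∃ g : I → ℝ → ℝ, g = fun k s => -f k s := ⟨_, rfl⟩
  obtain ⟨rw', hrw⟩ : ∃ rw' : I → Fin N → ℝ, rw' = fun k x => -rv k x := ⟨_, rfl⟩
  have hP' : ∀ k, Pcc 1 T 1 t (g k) := fun k => by rw [hg]; exact hP k
  have hgf : ∀ k s x, |g k s - rw' k x| = |f k s - rv k x| := by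
    intro k s x
    rw [hg, hrw, ← abs_neg]
    congr 1
    ring
  have sep' : ∀ k j j', j ≠ j' → 2 * w ≤ |rw' k j - rw' k j'| := by
    intro k j j' hjj
    have h1 : rw' k j - rw' k j' = -(rv k j - rv k j') := by rw [hrw]; ring
    rw [h1, abs_neg]
    exact sep k j j' hjj
  have hw1' : e + 4 * 1 * δ ≤ w := by linarith
  choose A hAc hA using fun k => single (hP' k) one_pos hδ he zero_le_one hw1' hw2
  set Sg : I → Finset (Fin N) := fun k => Finset.univ.filter fun x : Fin N =>
    ∃ a ∈ A k, |rw' k x - a| < w with hSg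
  have hgood : ∀ k, ∀ x, x ∉ Sg k → ∀ s ∈ Icc 0 T, ∀ s' ∈ Icc 0 T, |g k s - rw' k x| < e →
      |g k s' - rw' k x| < e → δ < s' - s → s' - s < 4 * δ → False := by
    intro k x hx
    simp only [hSg, Finset.mem_filter, Finset.mem_univ, true_and, not_exists, not_and,
      not_lt] at hx
    exact hA k _ hx
  choose! C hCc hCT hC using fun (k : I) (x : Fin N) (hx : x ∉ Sg k) =>
    double (hP' k) one_pos hδ (hgood k x hx)
  set Sd : I → I → Fin N → Finset (Fin N) := fun k k' x =>
    if x ∈ Sg k then ∅ else Finset.univ.filter fun y : Fin N =>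
      ∃ a ∈ (C k x).image (g k'), |rw' k' y - a| < w with hSd
  have hSdc : ∀ k k' x, (Sd k k' x).card ≤ 2 := by
    intro k k' x
    simp only [hSd]
    split_ifs with hx
    · simp
    · exact ((kill_count _ (sep' k') _).trans Finset.card_image_le).trans (hCc k x hx)
  set B1 : I → Finset (V → Fin N) := fun k => Finset.univ.filter fun v => v (o k) ∈ Sg k
    with hB1
  set B2 : I × I → Finset (V → Fin N) := fun p =>
    if o p.1 = o p.2 then ∅ else Finset.univ.filter fun v => v (o p.2) ∈ Sd p.1 p.2 (v (o p.1))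
      with hB2
  have hB1c : ∀ k, (B1 k).card * N ≤ 3 * N ^ Fintype.card V := by
    intro k
    refine count_fiber' (B1 k) (o k) fun v => ?_
    have : (Finset.univ.filter fun x : Fin N => Function.update v (o k) x ∈ B1 k) = Sg k := by
      ext x; simp [hB1]
    rw [this]
    exact (kill_count _ (sep' k) _).trans (hAc k)
  have hB2c : ∀ p, (B2 p).card * N ≤ 2 * N ^ Fintype.card V := by
    rintro ⟨k, k'⟩
    by_cases hkk : o k = o k'
    · simp [hB2, hkk]
    · refine count_fiber' (B2 (k, k')) (o k') fun v => ?_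
      have : (Finset.univ.filter fun x : Fin N => Function.update v (o k') x ∈ B2 (k, k')) =
          Sd k k' (v (o k)) := by
        ext x
        simp [hB2, hkk, Function.update_of_ne]
      rw [this]
      exact hSdc _ _ _
  refine ⟨Finset.univ.biUnion B1 ∪ Finset.univ.biUnion B2, ?_, ?_⟩
  · rw [← hn]
    have h1 : (Finset.univ.biUnion B1).card * N ≤ n * (3 * N ^ Fintype.card V) := by
      refine (Nat.mul_le_mul_right _ Finset.card_biUnion_le).trans ?_
      rw [Finset.sum_mul]
      refine (Finset.sum_le_sum fun k _ => hB1c k).trans ?_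
      simp [hn]
    have h2 : (Finset.univ.biUnion B2).card * N ≤ n * n * (2 * N ^ Fintype.card V) := by
      refine (Nat.mul_le_mul_right _ Finset.card_biUnion_le).trans ?_
      rw [Finset.sum_mul]
      refine (Finset.sum_le_sum fun k _ => hB2c k).trans ?_
      simp [hn]
    calc (Finset.univ.biUnion B1 ∪ Finset.univ.biUnion B2).card * N ≤
        ((Finset.univ.biUnion B1).card + (Finset.univ.biUnion B2).card) * N :=
          Nat.mul_le_mul_right _ (Finset.card_union_le _ _)
      _ = (Finset.univ.biUnion B1).card * N + (Finset.univ.biUnion B2).card * N := by ring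
      _ ≤ n * (3 * N ^ Fintype.card V) + n * n * (2 * N ^ Fintype.card V) := by omega
      _ = (3 * n + 2 * n * n) * N ^ Fintype.card V := by ring
      _ ≤ 5 * (n + 1) ^ 2 * N ^ Fintype.card V := by
          refine Nat.mul_le_mul_right _ ?_
          nlinarith [Nat.zero_le n]
  · intro v hv
    simp only [Finset.mem_union, Finset.mem_biUnion, Finset.mem_univ, true_and, not_or,
      not_exists] at hv
    obtain ⟨hv1, hv2⟩ := hv
    have hv1' : ∀ k, v (o k) ∉ Sg k := fun k => by
      have := hv1 k
      simpa [hB1] using this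
    have hsingle : ∀ s ∈ Icc 0 T, ∀ s' ∈ Icc 0 T, ∀ k, |f k s - rv k (v (o k))| < e →
        |f k s' - rv k (v (o k))| < e → ¬ (δ < |s - s'| ∧ |s - s'| < 4 * δ) := by
      intro s hs s' hs' k h1 h2 ⟨h3, h4⟩
      rw [← hgf] at h1 h2
      rcases le_total s s' with hss | hss
      · rw [abs_sub_comm, abs_of_nonneg (by linarith)] at h3 h4
        exact hgood k _ (hv1' k) s hs s' hs' h1 h2 h3 h4
      · rw [abs_of_nonneg (by linarith)] at h3 h4
        exact hgood k _ (hv1' k) s' hs' s hs h2 h1 h3 h4
    have key : ∀ s ∈ Icc 0 T, ∀ s' ∈ Icc 0 T, ∀ k k', |f k s - rv k (v (o k))| < e →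
        |f k' s' - rv k' (v (o k'))| < e → ¬ (δ < |s - s'| ∧ |s - s'| < 4 * δ) := by
      intro s hs s' hs' k k' h1 h2
      by_cases hkk : o k = o k'
      · rcases hsame k k' hkk with ⟨h3, h4⟩ | h3
        · rw [← h3, ← h4, ← hkk] at h2
          exact hsingle s hs s' hs' k h1 h2
        · rw [← hkk] at h2
          intro h4
          have h5 := h3 (v (o k)) s hs s' hs' h1 h2
          linarith [h4.2]
      · rintro ⟨h3, h4⟩
        rw [← hgf] at h1 h2
        have h5 := hv2 (k, k')
        simp only [hB2, if_neg hkk, Finset.mem_filter, Finset.mem_univ, true_and] at h5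
        simp only [hSd, if_neg (hv1' k), Finset.mem_filter, Finset.mem_univ, true_and,
          not_exists, not_and, not_lt] at h5
        obtain ⟨c, hc, hsc⟩ := hC k (v (o k)) (hv1' k) s hs h1
        have h6 := h5 (g k' c) (Finset.mem_image_of_mem _ hc)
        have hcT := hCT k (v (o k)) (hv1' k) c hc
        have h7 := (hP' k').lip c hcT s' hs'
        have h8 : |c - s'| ≤ 5 * δ := by
          have := abs_add_le (c - s) (s - s')
          have h9 : c - s + (s - s') = c - s' := by ring
          rw [h9, abs_sub_comm c s] at this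
          linarith
        rw [one_mul] at h7
        have h10 : |rw' k' (v (o k')) - g k' c| ≤
            |g k' s' - rw' k' (v (o k'))| + |g k' c - g k' s'| := by
          rw [abs_sub_comm (g k' s') _, abs_sub_comm (g k' c) _]
          have := abs_add_le (rw' k' (v (o k')) - g k' s') (g k' s' - g k' c)
          have h6 : rw' k' (v (o k')) - g k' s' + (g k' s' - g k' c) =
            rw' k' (v (o k')) - g k' c := by ring
          rw [h6] at this; exact this
        linarith
    intro s hs s' hs' k k' h1 h2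
    have := key s hs s' hs' k k' h1 h2
    by_contra hcon
    push Not at hcon
    exact this ⟨hcon.1, hcon.2⟩

end Pool.Agent.BG
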