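import Pool.Agent.Lib.MP_98022b_bg.Defs

/-!
# Covers of balls
-/

set_option autoImplicit false

open Set Filter Topology

namespace Pool.Agent.BG

open Pool.Agent.GLN

theorem exists_cov {X : Type} [MetricSpace X] {geo : X → X → ℝ → X} (hb : Bicomb X geo) {M : ℕ}
    (hD : Doubling X M) (m j : ℕ) (x : X) : ∃ F : Finset X, F.card ≤ M ^ (m + j) ∧
      ∀ z, dist z x ≤ m → ∃ y ∈ F, dist z y ≤ 1 / 2 ^ j := by
  classical
  -- the step: a cover by sets each of which has a cover by `M` sets
  have step : ∀ (F : Finset X) (r : ℝ), 0 < r → r ≤ 1 → ∃ F' : Finset X, F'.card ≤ F.card * M ∧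
      ∀ z, (∃ y ∈ F, dist z y ≤ 2 * r) → ∃ y ∈ F', dist z y ≤ r := by
    intro F r hr0 hr1
    choose C hC hC' using fun y => hD y r hr0 hr1
    refine ⟨F.biUnion C, Finset.card_biUnion_le_card_mul _ _ _ fun y _ => hC y, ?_⟩
    rintro z ⟨y, hy, hz⟩
    obtain ⟨y', hy', h⟩ := hC' y z hz
    exact ⟨y', Finset.mem_biUnion.2 ⟨y, hy, hy'⟩, h⟩
  induction j with
  | zero =>
    induction m with
    | zero =>
      refine ⟨{x}, by simp, fun z hz => ⟨x, Finset.mem_singleton_self x, ?_⟩⟩
      push_cast at hz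
      rw [pow_zero, div_one]
      linarith
    | succ m ih =>
      obtain ⟨F, hF, hF'⟩ := ih
      obtain ⟨F', h1, h2⟩ := step F 1 one_pos le_rfl
      refine ⟨F', h1.trans ?_, fun z hz => ?_⟩
      · rw [add_zero, pow_succ]
        rw [add_zero] at hF
        exact Nat.mul_le_mul_right _ hF
      · have hm : (0 : ℝ) < m + 1 := by positivity
        have hmem : (0 : ℝ) ≤ 1 / (m + 1) ∧ (1 : ℝ) / (m + 1) ≤ 1 := by
          refine ⟨by positivity, ?_⟩
          rw [div_le_one hm]
          linarith [(Nat.cast_nonneg m : (0 : ℝ) ≤ m)]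
        push_cast at hz
        -- the point between
        have h3 := hb.speed z x 0 (1 / (m + 1)) le_rfl zero_le_one hmem.1 hmem.2
        have h4 := hb.speed z x (1 / (m + 1)) 1 hmem.1 hmem.2 zero_le_one le_rfl
        rw [hb.zero, zero_sub, abs_neg, abs_of_nonneg hmem.1] at h3
        rw [hb.one, abs_sub_comm, abs_of_nonneg (by linarith [hmem.2])] at h4
        have h5 : 1 / ((m : ℝ) + 1) * dist z x ≤ 1 := by
          rw [one_div, inv_mul_le_iff₀ hm, mul_one]
          exact hz
        have h6 : (1 - 1 / ((m : ℝ) + 1)) * dist z x ≤ m := by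
          have h7 : (1 - 1 / ((m : ℝ) + 1)) = m / (m + 1) := by
            field_simp
            ring
          rw [h7, div_mul_eq_mul_div, div_le_iff₀ hm]
          exact mul_le_mul_of_nonneg_left hz (Nat.cast_nonneg m)
        obtain ⟨y, hy, h7⟩ := hF' _ (h4.trans h6)
        rw [pow_zero, div_one] at h7 ⊢
        refine h2 z ⟨y, hy, ?_⟩
        have h8 := dist_triangle z (geo z x (1 / ((m : ℝ) + 1))) y
        linarith
  | succ j ih =>
    obtain ⟨F, hF, hF'⟩ := ih
    have h0 : (0 : ℝ) < 1 / 2 ^ (j + 1) := by positivity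
    have h1 : (1 : ℝ) / 2 ^ (j + 1) ≤ 1 := by
      rw [div_le_one (by positivity)]
      exact one_le_pow₀ (by norm_num)
    obtain ⟨F', h2, h3⟩ := step F _ h0 h1
    refine ⟨F', h2.trans ?_, fun z hz => ?_⟩
    · rw [← add_assoc, pow_succ]
      exact Nat.mul_le_mul_right _ hF
    · obtain ⟨y, hy, h4⟩ := hF' z hz
      refine h3 z ⟨y, hy, h4.trans (le_of_eq ?_)⟩
      rw [pow_succ]
      field_simp

end Pool.Agent.BG
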