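import Pool.Agent.Lib.MP_98022b_td.IfaceQ

/-!
# Spaces and actions of bounded geometry: definitions
-/

set_option autoImplicit false

open Set Filter Topology

namespace Pool.Agent.BG

open Pool.Agent.GLN

/-- Every ball of radius `2 * r`, `r ≤ 1`, is covered by `M` balls of radius `r`. -/
def Doubling (X : Type) [MetricSpace X] (M : ℕ) : Prop :=
  ∀ (x : X) (r : ℝ), 0 < r → r ≤ 1 → ∃ F : Finset X, F.card ≤ M ∧
    ∀ z, dist z x ≤ 2 * r → ∃ y ∈ F, dist z y ≤ r

/-- For each point `x` at most `m` elements of `G` move `x` by less than `ε`. -/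
def UProper (G X : Type) [Group G] [MetricSpace X] [MulAction G X] (ε : ℝ) (m : ℕ) : Prop :=
  ∀ x : X, {g : G | dist x (g • x) < ε}.Finite ∧ {g : G | dist x (g • x) < ε}.ncard ≤ m

/-- Centres for an action. The points `c i` represent the orbits of the centres. The points
`h • c i`, `h ∈ H i`, are close together (they form a cluster), and the other points of the orbit
are far away. Each point of the space is close to a centre, and a ball of radius `m` contains at
most `A ^ (m + 1)` centres. -/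
structure Net (G X : Type) [Group G] [MetricSpace X] [MulAction G X] (ι : Type) (s₀ : ℝ)
    (A : ℕ) where
  c : ι → X
  H : ι → Subgroup G
  s : ι → ℝ
  s_le : ∀ i, s₀ ≤ s i ∧ s i ≤ 1
  near : ∀ i, ∀ h ∈ H i, dist (c i) (h • c i) ≤ s i / 100
  far : ∀ i, ∀ g : G, g ∉ H i → s i ≤ dist (c i) (g • c i)
  cover : ∀ w, ∃ (i : ι) (g : G), dist w (g • c i) ≤ s i / 100
  count : ∀ (w : X) (m : ℕ), {p : ι × G | dist w (p.2 • c p.1) ≤ m}.Finite ∧
    {p : ι × G | dist w (p.2 • c p.1) ≤ m}.ncard ≤ A ^ (m + 1)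

variable {G X ι : Type} [Group G] [MetricSpace X] [MulAction G X] {s₀ : ℝ} {A : ℕ}

/-- The largest distance of `w` to a point of the cluster of `c i`. -/
noncomputable def Net.F (N : Net G X ι s₀ A) (i : ι) (w : X) : ℝ :=
  ⨆ h : N.H i, dist w ((h : G) • N.c i)

/-- The radius for the threshold `t`. -/
noncomputable def Net.Rad (N : Net G X ι s₀ A) (i : ι) (t : ℝ) : ℝ := N.s i * (1 + t) / 16

/-- The window with the end `y` at the time `0` and the end `z` at the time `T`. -/
noncomputable def win (geo : X → X → ℝ → X) (T : ℝ) (z y : X) (s : ℝ) : X := geo z y (1 - s / T)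

/-- The thresholds `r` are good for the window `γ` of length `T`: no two bad times have a distance
between `δ` and `4 * δ`. -/
def Net.Good (N : Net G X ι s₀ A) (T δ e : ℝ) (γ : ℝ → X) (r : ι → ℝ) : Prop :=
  ∀ s ∈ Icc 0 T, ∀ s' ∈ Icc 0 T, ∀ (i : ι) (g : G) (i' : ι) (g' : G),
    |N.F i (g⁻¹ • γ s) - N.Rad i (r i)| < e →
    |N.F i' (g'⁻¹ • γ s') - N.Rad i' (r i')| < e → |s - s'| ≤ δ ∨ 4 * δ ≤ |s - s'|

/-- The admissible thresholds. -/
def Thr (ι : Type) : Type := {r : ι → ℝ // ∀ i, 0 ≤ r i ∧ r i ≤ 1}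

/-- The states: nonempty sets of points of small diameter. -/
def State (X : Type) [MetricSpace X] : Type :=
  {C : Set X // C.Nonempty ∧ ∀ x ∈ C, ∀ y ∈ C, dist x y ≤ 2}

/-- The distance of two states, rounded down. -/
noncomputable def dS (C C' : State X) : ℕ :=
  ⌊sInf {r | ∃ x ∈ C.1, ∃ y ∈ C'.1, r = dist x y}⌋₊

/-- The set of the centres which are close to `w`. -/
def Net.st (N : Net G X ι s₀ A) (r : ι → ℝ) (w : X) : Set X :=
  {x | ∃ (i : ι) (g : G), x = g • N.c i ∧ N.F i (g⁻¹ • w) < N.Rad i (r i)}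

/-- No threshold is nearly attained at `w`. -/
def Net.farT (N : Net G X ι s₀ A) (r : ι → ℝ) (e : ℝ) (w : X) : Prop :=
  ∀ (i : ι) (g : G), e ≤ |N.F i (g⁻¹ • w) - N.Rad i (r i)|

end Pool.Agent.BG
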