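import Pool.Agent.Lib.MP_98022b_bg.Thresh

/-!
# The discretization of a space of bounded geometry
-/

set_option autoImplicit false

open Set Filter Topology

open scoped Pointwise

namespace Pool.Agent.BG

open Pool.Agent.GLN

/-- The action on the states. -/
@[reducible] def actS {G X : Type} [Group G] [MetricSpace X] [MulAction G X]
    (isom : ∀ (g : G) (x y : X), dist (g • x) (g • y) = dist x y) : MulAction G (State X) where
  smul g C := ⟨g • C.1, C.2.1.smul_set, by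
    rintro _ ⟨x, hx, rfl⟩ _ ⟨y, hy, rfl⟩
    exact (isom g x y).le.trans (C.2.2 x hx y hy)⟩
  one_smul C := Subtype.ext (one_smul G C.1)
  mul_smul g h C := Subtype.ext (mul_smul g h C.1)

variable {G X ι : Type} [Group G] [MetricSpace X] [MulAction G X] {s₀ : ℝ} {A : ℕ}
  {geo : X → X → ℝ → X}

theorem Net.st_near (N : Net G X ι s₀ A)
    (isom : ∀ (g : G) (x y : X), dist (g • x) (g • y) = dist x y) (hs₀ : 0 < s₀) (r : Thr ι)
    {w x : X} (h : x ∈ N.st r.1 w) : dist w x ≤ 1 / 8 := by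
  obtain ⟨i, g, rfl, h1⟩ := h
  have h2 := N.dist_le_F isom i g w
  have h3 := (N.rad_le hs₀ i (r.2 i).1 (r.2 i).2).2.2.2
  linarith

theorem Net.st_nonempty (N : Net G X ι s₀ A)
    (isom : ∀ (g : G) (x y : X), dist (g • x) (g • y) = dist x y) (hs₀ : 0 < s₀) (r : Thr ι)
    (w : X) : (N.st r.1 w).Nonempty := by
  obtain ⟨i, g, h⟩ := N.cover w
  refine ⟨g • N.c i, i, g, rfl, ?_⟩
  have h1 := N.F_le i (g⁻¹ • w)
  rw [← isom g, smul_inv_smul] at h1
  have h2 := (N.rad_le hs₀ i (r.2 i).1 (r.2 i).2).2.1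
  have h3 := (N.s_le i).1
  linarith

/-- The state of `w`. -/
def Net.sta (N : Net G X ι s₀ A)
    (isom : ∀ (g : G) (x y : X), dist (g • x) (g • y) = dist x y) (hs₀ : 0 < s₀) (r : Thr ι)
    (w : X) : State X :=
  ⟨N.st r.1 w, N.st_nonempty isom hs₀ r w, fun x hx y hy => by
    have h1 := N.st_near isom hs₀ r hx
    have h2 := N.st_near isom hs₀ r hy
    have h3 := dist_triangle_left x y w
    linarith⟩

theorem Net.st_smul (N : Net G X ι s₀ A) (r : ι → ℝ) (g : G) (w : X) :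
    N.st r (g • w) = g • N.st r w := by
  ext x
  rw [Set.mem_smul_set_iff_inv_smul_mem]
  constructor
  · rintro ⟨i, h, rfl, h1⟩
    refine ⟨i, g⁻¹ * h, by rw [mul_smul], ?_⟩
    rwa [mul_inv_rev, inv_inv, mul_smul]
  · rintro ⟨i, h, h0, h1⟩
    refine ⟨i, g * h, ?_, ?_⟩
    · rw [mul_smul, ← h0, smul_inv_smul]
    · rwa [mul_inv_rev, mul_smul, inv_smul_smul]

theorem Net.far_smul (N : Net G X ι s₀ A) (r : ι → ℝ) (e : ℝ) (g : G) (w : X) :
    N.farT r e (g • w) ↔ N.farT r e w := by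
  constructor
  · intro h i g'
    have h1 := h i (g * g')
    rwa [mul_inv_rev, mul_smul, inv_smul_smul] at h1
  · intro h i g'
    have h1 := h i (g⁻¹ * g')
    rwa [mul_inv_rev, inv_inv, mul_smul] at h1

theorem Net.F_lip_smul (N : Net G X ι s₀ A)
    (isom : ∀ (g : G) (x y : X), dist (g • x) (g • y) = dist x y) (i : ι) (g : G) (w w' : X) :
    |N.F i (g⁻¹ • w) - N.F i (g⁻¹ • w')| ≤ dist w w' := by
  refine (N.F_lip _ _ _).trans ?_
  rw [isom]

theorem Net.far_dist (N : Net G X ι s₀ A)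
    (isom : ∀ (g : G) (x y : X), dist (g • x) (g • y) = dist x y) (r : ι → ℝ) (e : ℝ) (w w' : X)
    (h : N.farT r e w) : N.farT r (e - dist w w') w' := by
  intro i g
  have h1 := h i g
  have h2 := N.F_lip_smul isom i g w w'
  have h3 := abs_add_le (N.F i (g⁻¹ • w) - N.F i (g⁻¹ • w')) (N.F i (g⁻¹ • w') - N.Rad i (r i))
  rw [sub_add_sub_cancel] at h3
  linarith

/-- Different states are told apart by a centre. -/
theorem Net.exists_diff (N : Net G X ι s₀ A) {r : ι → ℝ} {w w' : X} (h : N.st r w ≠ N.st r w') :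
    ∃ (i : ι) (g : G), ¬ (N.F i (g⁻¹ • w) < N.Rad i (r i) ↔ N.F i (g⁻¹ • w') < N.Rad i (r i)) := by
  by_contra hcon
  push Not at hcon
  refine h (Set.ext fun x => ?_)
  constructor
  · rintro ⟨i, g, rfl, h1⟩
    exact ⟨i, g, rfl, (hcon i g).1 h1⟩
  · rintro ⟨i, g, rfl, h1⟩
    exact ⟨i, g, rfl, (hcon i g).2 h1⟩

theorem Net.st_eq (N : Net G X ι s₀ A)
    (isom : ∀ (g : G) (x y : X), dist (g • x) (g • y) = dist x y) (r : ι → ℝ) (e : ℝ) (w w' : X)
    (h : N.farT r e w) (hd : dist w w' < e) : N.st r w' = N.st r w := by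
  by_contra hne
  obtain ⟨i, g, hig⟩ := N.exists_diff hne
  have h1 := h i g
  have h2 := N.F_lip_smul isom i g w w'
  refine hig ?_
  rw [abs_le] at h2
  rcases le_abs.1 h1 with h3 | h3
  · constructor <;> intro h4 <;> linarith
  · constructor <;> intro h4 <;> linarith

/-- The short windows. -/
theorem Net.short (N : Net G X ι s₀ A)
    (isom : ∀ (g : G) (x y : X), dist (g • x) (g • y) = dist x y) (hs₀ : 0 < s₀) :
    ∃ (n : ℕ) (r : Fin n → Thr ι) (e : ℝ), 0 < e ∧ ∀ w, ∃ j, N.farT (r j).1 e w := by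
  obtain ⟨J, hJ⟩ : ∃ J : ℕ, J = A ^ 3 + 1 := ⟨_, rfl⟩
  have hJ0 : 0 < J := by omega
  have hJr : (1 : ℝ) ≤ J := by exact_mod_cast hJ0
  have hmem : ∀ j : Fin J, 0 ≤ ((j : ℕ) : ℝ) / J ∧ ((j : ℕ) : ℝ) / J ≤ 1 := by
    intro j
    refine ⟨by positivity, div_le_one_of_le₀ ?_ (by positivity)⟩
    exact_mod_cast j.2.le
  obtain ⟨e, he⟩ : ∃ e : ℝ, e = min (s₀ / (64 * J)) 1 := ⟨_, rfl⟩
  have he0 : 0 < e := by rw [he]; exact lt_min (by positivity) one_pos
  have he1 : e ≤ s₀ / (64 * J) := by rw [he]; exact min_le_left _ _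
  have he2 : e ≤ 1 := by rw [he]; exact min_le_right _ _
  refine ⟨J, fun j => ⟨fun _ => ((j : ℕ) : ℝ) / J, fun _ => hmem j⟩, e, he0, fun w => ?_⟩
  by_contra hcon
  push Not at hcon
  have h1 : ∀ j : Fin J, ∃ p : ι × G,
      |N.F p.1 (p.2⁻¹ • w) - N.Rad p.1 (((j : ℕ) : ℝ) / J)| < e := by
    intro j
    have h2 := hcon j
    unfold Net.farT at h2
    push Not at h2
    obtain ⟨i, g, h⟩ := h2
    exact ⟨(i, g), h⟩
  choose p hp using h1
  have hinj : Function.Injective p := by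
    intro j j' hjj
    by_contra hne
    have h2 := hp j
    have h3 := hp j'
    rw [← hjj] at h3
    have h4 : |N.Rad (p j).1 (((j : ℕ) : ℝ) / J) - N.Rad (p j).1 (((j' : ℕ) : ℝ) / J)| < 2 * e := by
      have h5 := abs_add_le (N.Rad (p j).1 (((j : ℕ) : ℝ) / J) - N.F (p j).1 ((p j).2⁻¹ • w))
        (N.F (p j).1 ((p j).2⁻¹ • w) - N.Rad (p j).1 (((j' : ℕ) : ℝ) / J))
      rw [sub_add_sub_cancel, abs_sub_comm (N.Rad (p j).1 _) (N.F (p j).1 _)] at h5
      linarith
    have h5 : (1 : ℝ) ≤ |((j : ℕ) : ℝ) - ((j' : ℕ) : ℝ)| := by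
      have h2 : ((j : ℕ) : ℤ) - ((j' : ℕ) : ℤ) ≠ 0 := by
        intro h3
        exact hne (Fin.ext (by omega))
      have h3 : (1 : ℤ) ≤ |((j : ℕ) : ℤ) - ((j' : ℕ) : ℤ)| := Int.one_le_abs h2
      have h4 : ((1 : ℤ) : ℝ) ≤ ((|((j : ℕ) : ℤ) - ((j' : ℕ) : ℤ)| : ℤ) : ℝ) := by
        exact_mod_cast h3
      push_cast at h4
      exact h4
    have h6 : N.Rad (p j).1 (((j : ℕ) : ℝ) / J) - N.Rad (p j).1 (((j' : ℕ) : ℝ) / J) =
        N.s (p j).1 / (16 * J) * (((j : ℕ) : ℝ) - ((j' : ℕ) : ℝ)) := by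
      unfold Net.Rad
      field_simp
      ring
    rw [h6, abs_mul] at h4
    have h7 := (N.s_le (p j).1).1
    have h8 : s₀ / (16 * J) ≤ |N.s (p j).1 / (16 * J)| := by
      rw [abs_of_nonneg (by have := hs₀.le.trans h7; positivity)]
      gcongr
    have h9 : s₀ / (16 * J) * 1 ≤
        |N.s (p j).1 / (16 * J)| * |((j : ℕ) : ℝ) - ((j' : ℕ) : ℝ)| :=
      mul_le_mul h8 h5 zero_le_one (abs_nonneg _)
    have h10 : s₀ / (16 * J) = 4 * (s₀ / (64 * J)) := by ring
    linarith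
  have hsub : ∀ j, p j ∈ {q : ι × G | dist w (q.2 • N.c q.1) ≤ ((2 : ℕ) : ℝ)} := by
    intro j
    show dist w ((p j).2 • N.c (p j).1) ≤ ((2 : ℕ) : ℝ)
    push_cast
    exact N.near_of_bad isom hs₀ _ _ w (hmem j).1 (hmem j).2 he2 (hp j)
  obtain ⟨hfin, hcard⟩ := N.count w 2
  have h2 : (Set.range p).ncard ≤ A ^ 3 :=
    (Set.ncard_le_ncard (Set.range_subset_iff.2 hsub) hfin).trans hcard
  rw [← Set.image_univ, Set.ncard_image_of_injective _ hinj, Set.ncard_univ,
    Nat.card_eq_fintype_card, Fintype.card_fin] at h2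
  omega

/-- The distances. -/
theorem Net.nearS (N : Net G X ι s₀ A)
    (isom : ∀ (g : G) (x y : X), dist (g • x) (g • y) = dist x y) (hs₀ : 0 < s₀) (r r' : Thr ι)
    (w w' : X) : (dS (N.sta isom hs₀ r w) (N.sta isom hs₀ r' w') : ℝ) ≤ dist w w' + 2 ∧
      dist w w' ≤ dS (N.sta isom hs₀ r w) (N.sta isom hs₀ r' w') + 2 := by
  obtain ⟨S, hS⟩ : ∃ S : Set ℝ, S = {t | ∃ x ∈ (N.sta isom hs₀ r w).1,
    ∃ y ∈ (N.sta isom hs₀ r' w').1, t = dist x y} := ⟨_, rfl⟩
  have h1 : ∀ t ∈ S, |t - dist w w'| ≤ 1 / 4 := by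
    rw [hS]
    rintro _ ⟨x, hx, y, hy, rfl⟩
    have h2 := N.st_near isom hs₀ r hx
    have h3 := N.st_near isom hs₀ r' hy
    have h4 := dist_dist_dist_le x y w w'
    rw [Real.dist_eq] at h4
    rw [dist_comm] at h2 h3
    linarith
  have hbd : BddBelow S := ⟨0, by
    rw [hS]
    rintro _ ⟨x, -, y, -, rfl⟩
    exact dist_nonneg⟩
  obtain ⟨x, hx⟩ := (N.sta isom hs₀ r w).2.1
  obtain ⟨y, hy⟩ := (N.sta isom hs₀ r' w').2.1
  have hmem : dist x y ∈ S := by rw [hS]; exact ⟨x, hx, y, hy, rfl⟩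
  have h2 : sInf S ≤ dist w w' + 1 / 4 := by
    have h3 := csInf_le hbd hmem
    have h4 := (abs_le.1 (h1 _ hmem)).2
    linarith
  have h3 : dist w w' - 1 / 4 ≤ sInf S := by
    refine le_csInf ⟨_, hmem⟩ fun t ht => ?_
    have := (abs_le.1 (h1 t ht)).1
    linarith
  have h4 : 0 ≤ sInf S := by
    refine le_csInf ⟨_, hmem⟩ ?_
    rw [hS]
    rintro _ ⟨x, -, y, -, rfl⟩
    exact dist_nonneg
  have h5 : dS (N.sta isom hs₀ r w) (N.sta isom hs₀ r' w') = ⌊sInf S⌋₊ := by rw [hS]; rfl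
  rw [h5]
  have h6 := Nat.floor_le h4
  have h7 := Nat.lt_floor_add_one (sInf S)
  constructor <;> linarith

/-- Few changes of the state in a unit of time. -/
theorem Net.few (N : Net G X ι s₀ A) (hb : Bicomb X geo)
    (isom : ∀ (g : G) (x y : X), dist (g • x) (g • y) = dist x y) (hs₀ : 0 < s₀) (r : Thr ι)
    (x y : X) (n : ℕ) (s : ℕ → ℝ) (hs : ∀ i < n, s i ≤ s (i + 1)) (h0 : 0 ≤ s 0)
    (h1 : s n ≤ s 0 + 1) (h2 : s n ≤ dist x y)
    (h3 : ∀ i < n, N.st r.1 (endPt geo x y (s i)) ≠ N.st r.1 (endPt geo x y (s (i + 1)))) :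
    n ≤ A ^ 3 * 2 := by
  have hmono : ∀ i j, i ≤ j → j ≤ n → s i ≤ s j := by
    intro i j hij
    induction j, hij using Nat.le_induction with
    | base => exact fun _ => le_rfl
    | succ j hij ih => exact fun hj => (ih (by omega)).trans (hs j (by omega))
  rcases Nat.eq_zero_or_pos n with hn | hn
  · omega
  have hT : 0 < dist x y := by
    rcases (dist_nonneg (x := x) (y := y)).lt_or_eq with h | h
    · exact h
    · exfalso
      have h4 := hmono 0 1 (by omega) hn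
      have h5 := hmono 1 n hn le_rfl
      have h6 : s 0 = s 1 := by linarith
      exact h3 0 hn (by rw [h6])
  obtain ⟨T, hTd⟩ : ∃ T : ℝ, T = dist x y := ⟨_, rfl⟩
  rw [← hTd] at hT h2
  have hwin : ∀ t ∈ Icc 0 T, endPt geo x y t = win geo T (endPt geo x y T) y t := fun t ht =>
    endPt_eq_win hb hT hTd.le ht
  have hmem : ∀ i ≤ n, s i ∈ Icc 0 T := fun i hi =>
    ⟨h0.trans (hmono 0 i (by omega) hi), (hmono i n hi le_rfl).trans h2⟩
  have hz : dist (endPt geo x y T) y ≤ T := by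
    have h4 := hb.speed x y (1 - T / dist x y) 1 (by rw [hTd, div_self (by linarith)]; norm_num)
      (by rw [hTd, div_self (by linarith)]; norm_num) zero_le_one le_rfl
    rw [hb.one] at h4
    refine h4.trans ?_
    rw [← hTd, div_self (by linarith)]
    norm_num
  -- the convex sets
  have hconv : ∀ (p : ι × G) (a b c : ℝ), a ∈ Icc 0 T → c ∈ Icc 0 T → a ≤ b → b ≤ c →
      N.F p.1 (p.2⁻¹ • endPt geo x y a) < N.Rad p.1 (r.1 p.1) →
      N.F p.1 (p.2⁻¹ • endPt geo x y c) < N.Rad p.1 (r.1 p.1) →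
      N.F p.1 (p.2⁻¹ • endPt geo x y b) < N.Rad p.1 (r.1 p.1) := by
    intro p a b c ha hc hab hbc h4 h5
    have hbm : b ∈ Icc 0 T := ⟨ha.1.trans hab, hbc.trans hc.2⟩
    rw [hwin a ha] at h4
    rw [hwin c hc] at h5
    rw [hwin b hbm]
    have h6 := (N.F_conv hb isom hT p.1 p.2 (endPt geo x y T) y).convex_lt
      (N.Rad p.1 (r.1 p.1))
    have h7 := (convex_iff_ordConnected.1 h6).out ⟨ha, h4⟩ ⟨hc, h5⟩ ⟨hab, hbc⟩
    exact h7.2
  have hex : ∀ i : Fin n, ∃ p : ι × G,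
      ¬ (N.F p.1 (p.2⁻¹ • endPt geo x y (s i)) < N.Rad p.1 (r.1 p.1) ↔
        N.F p.1 (p.2⁻¹ • endPt geo x y (s (i + 1))) < N.Rad p.1 (r.1 p.1)) := by
    intro i
    obtain ⟨j, g, h⟩ := N.exists_diff (h3 i i.2)
    exact ⟨(j, g), h⟩
  choose p hp using hex
  classical
  set τ : Fin n → Bool := fun i =>
    decide (N.F (p i).1 ((p i).2⁻¹ • endPt geo x y (s i)) < N.Rad (p i).1 (r.1 (p i).1)) with hτ
  obtain ⟨hfin, hcard⟩ := N.count (endPt geo x y (s 0)) 2
  have hsub : ∀ i, p i ∈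
      {q : ι × G | dist (endPt geo x y (s 0)) (q.2 • N.c q.1) ≤ ((2 : ℕ) : ℝ)} := by
    intro i
    show dist (endPt geo x y (s 0)) ((p i).2 • N.c (p i).1) ≤ ((2 : ℕ) : ℝ)
    have key : ∀ j ≤ n, N.F (p i).1 ((p i).2⁻¹ • endPt geo x y (s j)) <
        N.Rad (p i).1 (r.1 (p i).1) →
        dist (endPt geo x y (s 0)) ((p i).2 • N.c (p i).1) ≤ ((2 : ℕ) : ℝ) := by
      intro j hj h
      have h4 := N.dist_le_F isom (p i).1 (p i).2 (endPt geo x y (s j))
      have h5 := (N.rad_le hs₀ (p i).1 (r.2 (p i).1).1 (r.2 (p i).1).2).2.2.2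
      have h6 : dist (endPt geo x y (s 0)) (endPt geo x y (s j)) ≤ |s 0 - s j| := by
        rw [hwin _ (hmem 0 (by omega)), hwin _ (hmem j hj)]
        exact win_lip hb hT hz (hmem 0 (by omega)) (hmem j hj)
      have h7 : |s 0 - s j| ≤ 1 := by
        rw [abs_sub_comm, abs_of_nonneg (by linarith [hmono 0 j (by omega) hj])]
        linarith [hmono j n hj le_rfl]
      have h8 := dist_triangle (endPt geo x y (s 0)) (endPt geo x y (s j))
        ((p i).2 • N.c (p i).1)
      push_cast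
      linarith
    by_cases h : N.F (p i).1 ((p i).2⁻¹ • endPt geo x y (s i)) < N.Rad (p i).1 (r.1 (p i).1)
    · exact key i i.2.le h
    · refine key (i + 1) i.2 ?_
      by_contra h'
      exact hp i (iff_of_false h h')
  have hinj : Function.Injective fun i => (p i, τ i) := by
    have aux : ∀ i j : Fin n, i < j → p i = p j → τ i = τ j → False := by
      intro i j hij hpij hτij
      have hi := hp i
      have hj := hp j
      rw [← hpij] at hj
      have hle : (i : ℕ) + 1 ≤ j := hij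
      simp only [hτ, ← hpij, decide_eq_decide] at hτij
      by_cases h : N.F (p i).1 ((p i).2⁻¹ • endPt geo x y (s i)) < N.Rad (p i).1 (r.1 (p i).1)
      · have h4 := hτij.1 h
        refine hi (iff_of_true h ?_)
        exact hconv (p i) (s i) (s (i + 1)) (s j) (hmem i i.2.le) (hmem j j.2.le)
          (hs i i.2) (hmono _ _ hle j.2.le) h h4
      · have h4 : ¬ N.F (p i).1 ((p i).2⁻¹ • endPt geo x y (s j)) < N.Rad (p i).1 (r.1 (p i).1) :=
          fun h' => h (hτij.2 h')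
        have h5 : N.F (p i).1 ((p i).2⁻¹ • endPt geo x y (s (i + 1))) <
            N.Rad (p i).1 (r.1 (p i).1) := by
          by_contra h'
          exact hi (iff_of_false h h')
        have h6 : N.F (p i).1 ((p i).2⁻¹ • endPt geo x y (s (j + 1))) <
            N.Rad (p i).1 (r.1 (p i).1) := by
          by_contra h'
          exact hj (iff_of_false h4 h')
        exact h4 (hconv (p i) (s (i + 1)) (s j) (s (j + 1)) (hmem _ i.2) (hmem _ j.2)
          (hmono _ _ hle j.2.le) (hs j j.2) h5 h6)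
    intro i j hij
    have h4 : p i = p j := congrArg Prod.fst hij
    have h5 : τ i = τ j := congrArg Prod.snd hij
    rcases lt_trichotomy i j with h | h | h
    · exact (aux i j h h4 h5).elim
    · exact h
    · exact (aux j i h h4.symm h5.symm).elim
  have h4 : (Set.range fun i => (p i, τ i)).ncard ≤ A ^ 3 * 2 := by
    have h5 : (Set.range fun i => (p i, τ i)) ⊆
        {q : ι × G | dist (endPt geo x y (s 0)) (q.2 • N.c q.1) ≤ ((2 : ℕ) : ℝ)} ×ˢ
          (Set.univ : Set Bool) := by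
      rintro _ ⟨i, rfl⟩
      exact ⟨hsub i, trivial⟩
    refine (Set.ncard_le_ncard h5 (hfin.prod Set.finite_univ)).trans ?_
    rw [Set.ncard_prod, Set.ncard_univ, Nat.card_eq_fintype_card, Fintype.card_bool]
    exact Nat.mul_le_mul_right _ hcard
  rw [← Set.image_univ, Set.ncard_image_of_injective _ hinj, Set.ncard_univ,
    Nat.card_eq_fintype_card, Fintype.card_fin] at h4
  exact h4

/-- The events of a good window. -/
theorem Net.isEvents (N : Net G X ι s₀ A) (hb : Bicomb X geo)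
    (isom : ∀ (g : G) (x y : X), dist (g • x) (g • y) = dist x y) (hs₀ : 0 < s₀) (r : Thr ι)
    {n : ℕ} (hn : 0 < n) {δ ε : ℝ} (hε : 0 < ε) (x y : X) (hxy : 5 * (n : ℝ) ≤ dist x y)
    (hg : N.Good (5 * n) δ ε (win geo (5 * n) (endPt geo x y (5 * n)) y) r.1) :
    TR.IsEvents (n : ℝ) δ (fun s => N.sta isom hs₀ r (endPt geo x y s))
      {s | ¬ N.farT r.1 ε (endPt geo x y s)} where
  const := by
    intro s hs t ht hst hE
    have hT : (0 : ℝ) < 5 * n := by positivity
    by_contra hne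
    have hne' : N.st r.1 (endPt geo x y s) ≠ N.st r.1 (endPt geo x y t) :=
      fun h => hne (Subtype.ext h)
    obtain ⟨i, g, hig⟩ := N.exists_diff hne'
    have hz : dist (endPt geo x y (5 * n)) y ≤ 5 * n := by
      have hd : 0 < dist x y := hT.trans_le hxy
      have h4 := hb.speed x y (1 - 5 * n / dist x y) 1
        (by have := div_le_one_of_le₀ hxy hd.le; linarith)
        (by have : 0 ≤ 5 * (n : ℝ) / dist x y := by positivity
            linarith) zero_le_one le_rfl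
      rw [hb.one] at h4
      refine h4.trans ?_
      rw [sub_sub_cancel_left, abs_neg, abs_of_nonneg (by positivity), div_mul_cancel₀ _ hd.ne']
    have hcont : ContinuousOn (fun u => N.F i (g⁻¹ • endPt geo x y u)) (Icc s t) := by
      refine (LipschitzOnWith.of_dist_le_mul (K := 1) fun a ha b hb' => ?_).continuousOn
      rw [Real.dist_eq, NNReal.coe_one, one_mul, Real.dist_eq]
      have ha' : a ∈ Icc (0 : ℝ) (5 * n) := ⟨hs.1.trans ha.1, ha.2.trans ht.2⟩
      have hb'' : b ∈ Icc (0 : ℝ) (5 * n) := ⟨hs.1.trans hb'.1, hb'.2.trans ht.2⟩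
      refine (N.F_lip_smul isom i g _ _).trans ?_
      rw [endPt_eq_win hb hT hxy ha', endPt_eq_win hb hT hxy hb'']
      exact win_lip hb hT hz ha' hb''
    have hbad : ∃ u ∈ Icc s t, N.F i (g⁻¹ • endPt geo x y u) = N.Rad i (r.1 i) := by
      rcases lt_or_ge (N.F i (g⁻¹ • endPt geo x y s)) (N.Rad i (r.1 i)) with h1 | h1
      · have h2 : N.Rad i (r.1 i) ≤ N.F i (g⁻¹ • endPt geo x y t) := by
          by_contra h'
          exact hig (iff_of_true h1 (not_le.1 h'))
        exact intermediate_value_Icc hst hcont ⟨h1.le, h2⟩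
      · have h2 : N.F i (g⁻¹ • endPt geo x y t) < N.Rad i (r.1 i) := by
          by_contra h'
          exact hig (iff_of_false (not_lt.2 h1) h')
        exact intermediate_value_Icc' hst hcont ⟨h2.le, h1⟩
    obtain ⟨u, hu, h1⟩ := hbad
    refine hE u ?_ hu
    intro hf
    have h2 := hf i g
    rw [h1, sub_self, abs_zero] at h2
    linarith
  gap := by
    intro e he e' he' hem hem'
    have hT : (0 : ℝ) < 5 * n := by positivity
    change ¬ N.farT r.1 ε (endPt geo x y e) at he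
    change ¬ N.farT r.1 ε (endPt geo x y e') at he'
    unfold Net.farT at he he'
    push Not at he he'
    obtain ⟨i, g, h1⟩ := he
    obtain ⟨i', g', h2⟩ := he'
    rw [endPt_eq_win hb hT hxy hem] at h1
    rw [endPt_eq_win hb hT hxy hem'] at h2
    exact hg e hem e' hem' i g i' g' h1 h2

theorem exists_discQ (hb : Bicomb X geo)
    (isom : ∀ (g : G) (x y : X), dist (g • x) (g • y) = dist x y)
    (geo_smul : ∀ (g : G) (x y : X) t, 0 ≤ t → t ≤ 1 → g • geo x y t = geo (g • x) (g • y) t)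
    {M : ℕ} (hD : Doubling X M) (hs₀ : 0 < s₀) (hA : 1 ≤ A) (N : Net G X ι s₀ A) :
    Nonempty (@TD.DiscQ (Thr ι) G X (State X) _ _ _ (actS isom) dS geo) := by
  let _ := actS isom
  refine ⟨{
    st := fun r w => N.sta isom hs₀ r w
    far := fun r e w => N.farT r.1 e w
    st_smul := fun g r w => Subtype.ext (N.st_smul r.1 g w)
    far_smul := fun g r e w => N.far_smul r.1 e g w
    far_mono := fun r e e' w h he i g => he.trans (h i g)
    far_dist := fun r e w w' h => N.far_dist isom r.1 e w w' h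
    st_eq := fun r e w w' h hd => Subtype.ext (N.st_eq isom r.1 e w w' h hd)
    short := N.short isom hs₀
    near := ⟨2, fun r r' w w' => by
      have h := N.nearS isom hs₀ r r' w w'
      exact_mod_cast h⟩
    few := ⟨A ^ 3 * 2, fun r x y n s hs h0 h1 h2 h3 => N.few hb isom hs₀ r x y n s hs h0 h1 h2
      fun i hi heq => h3 i hi (Subtype.ext heq)⟩
    pairs := ?_ }⟩
  obtain ⟨K, B, h⟩ := exists_thresholds hb isom geo_smul hD hs₀ hA N
  refine ⟨K, B, fun n hn => ?_⟩
  obtain ⟨r, δ, ε, hε, hεB, hεδ, hδ, hgood⟩ := h n hn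
  refine ⟨r, fun _ => δ, ε, hε, hεB, fun _ => ⟨hεδ, hδ⟩, fun x y hxy => ?_⟩
  have hn0 : 0 < n := by omega
  have hT : (0 : ℝ) < 5 * n := by positivity
  obtain ⟨k, hk⟩ := hgood (endPt geo x y (5 * n)) y (by
    have hd : 0 < dist x y := hT.trans_le hxy
    have h4 := hb.speed x y (1 - 5 * n / dist x y) 1
      (by have := div_le_one_of_le₀ hxy hd.le; linarith)
      (by have : 0 ≤ 5 * (n : ℝ) / dist x y := by positivity
          linarith) zero_le_one le_rfl
    rw [hb.one] at h4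
    refine h4.trans ?_
    rw [sub_sub_cancel_left, abs_neg, abs_of_nonneg (by positivity), div_mul_cancel₀ _ hd.ne'])
  exact ⟨k, N.isEvents hb isom hs₀ (r k) hn0 hε x y hxy hk⟩

end Pool.Agent.BG
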