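import Pool.Agent.Lib.MP_98022b_bg.Defs

/-!
# The functions of the clusters and the windows
-/

set_option autoImplicit false

open Set Filter Topology

namespace Pool.Agent.BG

open Pool.Agent.GLN

variable {G X ι : Type} [Group G] [MetricSpace X] [MulAction G X] {s₀ : ℝ} {A : ℕ}
  {geo : X → X → ℝ → X}

theorem Net.bdd (N : Net G X ι s₀ A) (i : ι) (w : X) :
    BddAbove (range fun h : N.H i => dist w ((h : G) • N.c i)) := by
  refine ⟨dist w (N.c i) + N.s i / 100, ?_⟩
  rintro _ ⟨h, rfl⟩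
  have h1 := N.near i h h.2
  have h2 := dist_triangle w (N.c i) ((h : G) • N.c i)
  dsimp only
  linarith

theorem Net.le_F (N : Net G X ι s₀ A) (i : ι) (w : X) {h : G} (hh : h ∈ N.H i) :
    dist w (h • N.c i) ≤ N.F i w :=
  le_ciSup (N.bdd i w) (⟨h, hh⟩ : N.H i)

theorem Net.F_le (N : Net G X ι s₀ A) (i : ι) (w : X) :
    N.F i w ≤ dist w (N.c i) + N.s i / 100 := by
  refine ciSup_le fun h => ?_
  have h1 := N.near i h h.2
  have h2 := dist_triangle w (N.c i) ((h : G) • N.c i)
  linarith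

theorem Net.F_le_add (N : Net G X ι s₀ A) (i : ι) (w w' : X) : N.F i w ≤ N.F i w' + dist w w' := by
  refine ciSup_le fun h => ?_
  have h1 := N.le_F i w' h.2
  have h2 := dist_triangle w w' ((h : G) • N.c i)
  linarith

theorem Net.F_lip (N : Net G X ι s₀ A) (i : ι) (w w' : X) : |N.F i w - N.F i w'| ≤ dist w w' := by
  have h1 := N.F_le_add i w w'
  have h2 := N.F_le_add i w' w
  rw [dist_comm w' w] at h2
  rw [abs_le]
  constructor <;> linarith

theorem Net.F_smul_le (N : Net G X ι s₀ A)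
    (isom : ∀ (g : G) (x y : X), dist (g • x) (g • y) = dist x y) (i : ι) (w : X) {h : G}
    (hh : h ∈ N.H i) : N.F i (h • w) ≤ N.F i w := by
  refine ciSup_le fun k => ?_
  rw [← isom h⁻¹, inv_smul_smul, ← mul_smul]
  exact N.le_F i w (mul_mem (inv_mem hh) k.2)

theorem Net.F_smul (N : Net G X ι s₀ A)
    (isom : ∀ (g : G) (x y : X), dist (g • x) (g • y) = dist x y) (i : ι) (w : X) {h : G}
    (hh : h ∈ N.H i) : N.F i (h • w) = N.F i w := by
  refine le_antisymm (N.F_smul_le isom i w hh) ?_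
  have h1 := N.F_smul_le isom i (h • w) (inv_mem hh)
  rwa [inv_smul_smul] at h1

/-- Two clusters in the same orbit are equal or far apart. -/
theorem Net.F_orbit (N : Net G X ι s₀ A)
    (isom : ∀ (g : G) (x y : X), dist (g • x) (g • y) = dist x y) (i : ι) (g g' : G) :
    (∀ w, N.F i (g⁻¹ • w) = N.F i (g'⁻¹ • w)) ∨
      ∀ w w', N.s i ≤ N.F i (g⁻¹ • w) + dist w w' + N.F i (g'⁻¹ • w') := by
  have key : ∀ (g : G) (w : X), dist w (g • N.c i) ≤ N.F i (g⁻¹ • w) := by
    intro g w
    have h := N.le_F i (g⁻¹ • w) (one_mem (N.H i))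
    rw [one_smul, ← isom g, smul_inv_smul] at h
    exact h
  by_cases h : g⁻¹ * g' ∈ N.H i
  · left
    intro w
    have h1 := N.F_smul isom i (g⁻¹ • w) (inv_mem h)
    rw [← h1, ← mul_smul, mul_inv_rev, inv_inv, mul_assoc, mul_inv_cancel, mul_one]
  · right
    intro w w'
    have h1 := N.far i _ h
    rw [← isom g, ← mul_smul, mul_inv_cancel_left] at h1
    have h2 := key g w
    have h3 := key g' w'
    have h4 := dist_triangle (g • N.c i) w (g' • N.c i)
    have h5 := dist_triangle w w' (g' • N.c i)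
    rw [dist_comm _ w] at h4
    linarith

/-! ### Windows -/

theorem geo_self (hb : Bicomb X geo) (q : X) {t : ℝ} (h0 : 0 ≤ t) (h1 : t ≤ 1) :
    geo q q t = q := by
  have h := hb.speed q q t 1 h0 h1 zero_le_one le_rfl
  rw [dist_self, mul_zero, hb.one] at h
  exact dist_le_zero.1 h

theorem par_mem {T : ℝ} (hT : 0 < T) {s : ℝ} (hs : s ∈ Icc 0 T) : 0 ≤ 1 - s / T ∧ 1 - s / T ≤ 1 := by
  have h1 := (div_le_one hT).2 hs.2
  have h2 : 0 ≤ s / T := div_nonneg hs.1 hT.le
  constructor <;> linarith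

theorem win_lip (hb : Bicomb X geo) {T : ℝ} (hT : 0 < T) {z y : X} (h : dist z y ≤ T) {s t : ℝ}
    (hs : s ∈ Icc 0 T) (ht : t ∈ Icc 0 T) : dist (win geo T z y s) (win geo T z y t) ≤ |s - t| := by
  have h1 := hb.speed z y (1 - s / T) (1 - t / T) (par_mem hT hs).1 (par_mem hT hs).2
    (par_mem hT ht).1 (par_mem hT ht).2
  refine h1.trans ?_
  have h2 : (1 - s / T - (1 - t / T)) = -((s - t) / T) := by ring
  rw [h2, abs_neg, abs_div, abs_of_pos hT]
  calc |s - t| / T * dist z y ≤ |s - t| / T * T :=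
        mul_le_mul_of_nonneg_left h (by positivity)
    _ = |s - t| := div_mul_cancel₀ _ hT.ne'

theorem win_close (hb : Bicomb X geo) {T : ℝ} (hT : 0 < T) {z y z' y' : X} {η : ℝ}
    (hz : dist z z' ≤ η) (hy : dist y y' ≤ η) {s : ℝ} (hs : s ∈ Icc 0 T) :
    dist (win geo T z y s) (win geo T z' y' s) ≤ η := by
  obtain ⟨h0, h1⟩ := par_mem hT hs
  have h2 := hb.conical z y z' y' (1 - s / T) h0 h1
  refine h2.trans ?_
  have h3 : 0 ≤ 1 - (1 - s / T) := by linarith
  calc (1 - (1 - s / T)) * dist z z' + (1 - s / T) * dist y y' ≤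
      (1 - (1 - s / T)) * η + (1 - s / T) * η :=
        add_le_add (mul_le_mul_of_nonneg_left hz h3) (mul_le_mul_of_nonneg_left hy h0)
    _ = η := by ring

theorem win_zero (hb : Bicomb X geo) (T : ℝ) (z y : X) : win geo T z y 0 = y := by
  unfold win
  rw [zero_div, sub_zero, hb.one]

theorem win_smul {T : ℝ} (hT : 0 < T)
    (geo_smul : ∀ (g : G) (x y : X) t, 0 ≤ t → t ≤ 1 → g • geo x y t = geo (g • x) (g • y) t)
    (g : G) (z y : X) {s : ℝ} (hs : s ∈ Icc 0 T) :
    g • win geo T z y s = win geo T (g • z) (g • y) s :=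
  geo_smul g z y _ (par_mem hT hs).1 (par_mem hT hs).2

/-- The path to the end of a geodesic is a window. -/
theorem endPt_eq_win (hb : Bicomb X geo) {T : ℝ} (hT : 0 < T) {x y : X} (h : T ≤ dist x y) {s : ℝ}
    (hs : s ∈ Icc 0 T) : endPt geo x y s = win geo T (endPt geo x y T) y s := by
  have hd : 0 < dist x y := hT.trans_le h
  have h1 : T / dist x y ≤ 1 := (div_le_one hd).2 h
  have h2 : 0 ≤ T / dist x y := by positivity
  have h3 := hb.consistent x y (1 - T / dist x y) 1 (1 - s / T) (by linarith) (by linarith)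
    zero_le_one le_rfl (par_mem hT hs).1 (par_mem hT hs).2
  unfold win endPt
  rw [hb.one] at h3
  rw [h3]
  congr 1
  field_simp
  ring

/-- The distance to a point is convex along a window. -/
theorem win_conv (hb : Bicomb X geo) {T : ℝ} (hT : 0 < T) (z y q : X) :
    ConvexOn ℝ (Icc 0 T) fun s => dist (win geo T z y s) q := by
  refine ⟨convex_Icc 0 T, fun s hs t ht a b ha hb' hab => ?_⟩
  have hs' := par_mem hT hs
  have ht' := par_mem hT ht
  have hb1 : b ≤ 1 := by linarith
  have h1 := hb.consistent z y (1 - s / T) (1 - t / T) b hs'.1 hs'.2 ht'.1 ht'.2 hb' hb1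
  have h2 : (1 - b) * (1 - s / T) + b * (1 - t / T) = 1 - (a • s + b • t) / T := by
    have : a = 1 - b := by linarith
    simp only [smul_eq_mul, this]
    ring
  rw [h2] at h1
  have h3 := hb.conical (win geo T z y s) (win geo T z y t) q q b hb' hb1
  rw [geo_self hb q hb' hb1] at h3
  show dist (win geo T z y (a • s + b • t)) q ≤
    a • dist (win geo T z y s) q + b • dist (win geo T z y t) q
  have h4 : a = 1 - b := by linarith
  unfold win at h3 ⊢
  rw [← h1, h4, smul_eq_mul, smul_eq_mul]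
  exact h3

theorem Net.F_conv (N : Net G X ι s₀ A) (hb : Bicomb X geo)
    (isom : ∀ (g : G) (x y : X), dist (g • x) (g • y) = dist x y) {T : ℝ} (hT : 0 < T) (i : ι)
    (g : G) (z y : X) : ConvexOn ℝ (Icc 0 T) fun s => N.F i (g⁻¹ • win geo T z y s) := by
  refine ⟨convex_Icc 0 T, fun s hs t ht a b ha hb' hab => ?_⟩
  refine ciSup_le fun h => ?_
  have h1 := (win_conv hb hT z y (g • (h : G) • N.c i)).2 hs ht ha hb' hab
  have h2 : ∀ u : ℝ, dist (g⁻¹ • win geo T z y u) ((h : G) • N.c i) =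
      dist (win geo T z y u) (g • (h : G) • N.c i) := by
    intro u
    rw [← isom g, smul_inv_smul]
  rw [h2]
  refine h1.trans ?_
  show a * dist (win geo T z y s) (g • (h : G) • N.c i) +
    b * dist (win geo T z y t) (g • (h : G) • N.c i) ≤
      a * N.F i (g⁻¹ • win geo T z y s) + b * N.F i (g⁻¹ • win geo T z y t)
  rw [← h2, ← h2]
  exact add_le_add (mul_le_mul_of_nonneg_left (N.le_F i _ h.2) ha)
    (mul_le_mul_of_nonneg_left (N.le_F i _ h.2) hb')

end Pool.Agent.BG
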