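import Pool.Agent.Lib.MP_5fcc10_co.LLL

/-!
# The local lemma for infinitely many events
-/

set_option autoImplicit false

open Set Filter Topology

namespace Pool.Agent.BG

open Classical in
/-- The map which is `ψ` on `W` and `φ` elsewhere. -/
noncomputable def ext {V κ : Type} (W : Finset V) (φ : V → κ) (ψ : W → κ) : V → κ := fun v =>
  if h : v ∈ W then ψ ⟨v, h⟩ else φ v

private theorem ext_apply {V κ : Type} {W : Finset V} (φ : V → κ) (ψ : W → κ) {v : V}
    (h : v ∈ W) : ext W φ ψ v = ψ ⟨v, h⟩ := by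
  unfold ext
  rw [dif_pos h]

/-- the local lemma for finitely many of the events -/
private theorem lll_finset {ι V κ : Type} [Finite κ] [Nonempty κ] (E : ι → (V → κ) → Prop)
    (supp : ι → Set V) (hfin : ∀ i, (supp i).Finite)
    (hdep : ∀ i φ ψ, (∀ v ∈ supp i, φ v = ψ v) → E i φ → E i ψ) (q Q D : ℕ) (hQ : 0 < Q)
    (hD1 : 1 ≤ D)
    (hp : ∀ i (φ : V → κ) (W : Finset V), supp i ⊆ W →
      Nat.card {ψ : W → κ // E i (ext W φ ψ)} * Q ≤ q * Nat.card κ ^ W.card)
    (hD : ∀ i, {j | ¬ Disjoint (supp i) (supp j)}.Finite ∧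
      {j | ¬ Disjoint (supp i) (supp j)}.ncard ≤ D)
    (h : 4 * q * D ≤ Q) (S : Finset ι) : ∃ φ : V → κ, ∀ i ∈ S, ¬ E i φ := by
  classical
  have : Fintype κ := Fintype.ofFinite κ
  obtain ⟨k⟩ := (inferInstance : Nonempty κ)
  set φ₀ : V → κ := fun _ => k
  set W : Finset V := S.biUnion fun i => (hfin i).toFinset with hW
  have hsub : ∀ i ∈ S, supp i ⊆ W := by
    intro i hi v hv
    exact Finset.mem_coe.2 (Finset.mem_biUnion.2 ⟨i, hi, (hfin i).mem_toFinset.2 hv⟩)
  set sf : S → Finset W := fun i => Finset.univ.filter fun v : W => v.1 ∈ supp i.1 with hsf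
  have hQ' : (0 : ℝ) < Q := by exact_mod_cast hQ
  obtain ⟨ψ, hψ⟩ := SK.lll (V := W) (κ := κ) (ι := S) (fun i ψ => E i.1 (ext W φ₀ ψ)) sf
    (by
      intro i φ ψ hv
      have hag : ∀ v ∈ supp i.1, ext W φ₀ φ v = ext W φ₀ ψ v := by
        intro v hvs
        have hvW : v ∈ W := hsub i.1 i.2 hvs
        rw [ext_apply _ _ hvW, ext_apply _ _ hvW]
        exact hv ⟨v, hvW⟩ (Finset.mem_filter.2 ⟨Finset.mem_univ _, hvs⟩)
      exact propext ⟨hdep i.1 _ _ hag, hdep i.1 _ _ fun v hvs => (hag v hvs).symm⟩)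
    ((q : ℝ) / Q) D hD1
    (by
      intro i
      have h1 := hp i.1 φ₀ W (hsub i.1 i.2)
      have hc : (0 : ℝ) < (Fintype.card (W → κ) : ℝ) := SK.card_pos'
      have h2 : SK.P (fun ψ : W → κ => E i.1 (ext W φ₀ ψ)) =
          (Nat.card {ψ : W → κ // E i.1 (ext W φ₀ ψ)} : ℝ) / Fintype.card (W → κ) := by
        unfold SK.P SK.E
        congr 1
        rw [Nat.card_eq_fintype_card, Fintype.card_subtype, Finset.sum_ite]
        simp only [Finset.sum_const, smul_zero, add_zero, nsmul_eq_mul, mul_one]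
      rw [h2, div_le_div_iff₀ hc hQ']
      have h3 : Fintype.card (W → κ) = Nat.card κ ^ W.card := by
        rw [Fintype.card_fun, Nat.card_eq_fintype_card, Fintype.card_coe]
      rw [h3]
      exact_mod_cast h1)
    (by
      intro i
      refine le_trans ?_ (hD i.1).2
      rw [Set.ncard_eq_toFinset_card _ (hD i.1).1]
      refine Finset.card_le_card_of_injOn (fun j => j.1) ?_ (fun a _ b _ hab => Subtype.ext hab)
      intro j hj
      have hj' := (Finset.mem_filter.1 (Finset.mem_coe.1 hj)).2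
      refine Finset.mem_coe.2 ((hD i.1).1.mem_toFinset.2 ?_)
      intro hdis
      refine hj' (Finset.disjoint_left.2 fun v hv1 hv2 => ?_)
      exact Set.disjoint_left.1 hdis (Finset.mem_filter.1 hv1).2 (Finset.mem_filter.1 hv2).2)
    (by
      have h4 : (4 : ℝ) * q * D ≤ Q := by exact_mod_cast h
      rw [mul_div_assoc', div_mul_eq_mul_div, div_le_one hQ']
      exact h4)
  exact ⟨ext W φ₀ ψ, fun i hi => hψ ⟨i, hi⟩⟩

/-- The local lemma for infinitely many events. The number of the points at which the event `i`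
occurs is at most `q / Q` of the number of all points. -/
theorem lll_infinite {ι V κ : Type} [Finite κ] [Nonempty κ] (E : ι → (V → κ) → Prop)
    (supp : ι → Set V) (hfin : ∀ i, (supp i).Finite)
    (hdep : ∀ i φ ψ, (∀ v ∈ supp i, φ v = ψ v) → E i φ → E i ψ) (q Q D : ℕ) (hQ : 0 < Q)
    (hD1 : 1 ≤ D)
    (hp : ∀ i (φ : V → κ) (W : Finset V), supp i ⊆ W →
      Nat.card {ψ : W → κ // E i (ext W φ ψ)} * Q ≤ q * Nat.card κ ^ W.card)
    (hD : ∀ i, {j | ¬ Disjoint (supp i) (supp j)}.Finite ∧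
      {j | ¬ Disjoint (supp i) (supp j)}.ncard ≤ D)
    (h : 4 * q * D ≤ Q) : ∃ φ : V → κ, ∀ i, ¬ E i φ := by
  let _ : TopologicalSpace κ := ⊥
  have : DiscreteTopology κ := ⟨rfl⟩
  have hcl : ∀ i, IsClosed {φ : V → κ | ¬ E i φ} := by
    intro i
    rw [← isOpen_compl_iff, isOpen_iff_forall_mem_open]
    intro φ hφ
    have hφ' : E i φ := not_not.1 hφ
    refine ⟨(supp i).pi fun v => {φ v}, ?_, isOpen_set_pi (hfin i) fun _ _ => isOpen_discrete _,
      fun v _ => rfl⟩
    intro ψ hψ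
    exact not_not.2 (hdep i φ ψ (fun v hv => (hψ v hv).symm) hφ')
  obtain ⟨φ, hφ⟩ := (isCompact_univ (X := V → κ)).inter_iInter_nonempty
    (fun i => {φ : V → κ | ¬ E i φ}) hcl (fun S => by
      obtain ⟨φ, hφ⟩ := lll_finset E supp hfin hdep q Q D hQ hD1 hp hD h S
      exact ⟨φ, mem_univ _, Set.mem_iInter₂.2 fun i hi => hφ i hi⟩)
  exact ⟨φ, fun i => Set.mem_iInter.1 hφ.2 i⟩

end Pool.Agent.BG
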