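import Pool.Agent.Lib.MP_98022b_bg.Cov

/-!
# Existence of centres for a uniformly proper action
-/

set_option autoImplicit false

open Set Filter Topology

namespace Pool.Agent.BG

open Pool.Agent.GLN

/-- A decreasing sequence of nonempty finite sets with at most `m` elements is constant at some
step. -/
private theorem exists_eq_succ {α : Type} (A : ℕ → Set α) (hA : ∀ i, A (i + 1) ⊆ A i)
    (hne : ∀ i, (A i).Nonempty) (hfin : (A 0).Finite) {m : ℕ} (hm : (A 0).ncard ≤ m) :
    ∃ j, j < m ∧ A j = A (j + 1) := by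
  by_contra hcon
  push Not at hcon
  have hsub : ∀ i, A i ⊆ A 0 := by
    intro i
    induction i with
    | zero => exact subset_rfl
    | succ i ih => exact (hA i).trans ih
  have hf : ∀ i, (A i).Finite := fun i => hfin.subset (hsub i)
  have hdec : ∀ i, i ≤ m → (A i).ncard + i ≤ m := by
    intro i
    induction i with
    | zero => intro _; simpa using hm
    | succ i ih =>
      intro hi
      have h1 := ih (by omega)
      have h2 : (A (i + 1)).ncard < (A i).ncard := by
        refine Set.ncard_lt_ncard ?_ (hf i)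
        exact (hA i).ssubset_of_ne (hcon i (by omega)).symm
      omega
  have h3 := hdec m le_rfl
  have h4 : 0 < (A m).ncard := (Set.ncard_pos (hf m)).2 (hne m)
  omega

/-- The pigeonhole for the scales: the elements which move `x` a little form a group, and the other
elements move `x` much more. -/
theorem exists_scale {G X : Type} [Group G] [MetricSpace X] [MulAction G X]
    (isom : ∀ (g : G) (x y : X), dist (g • x) (g • y) = dist x y) {ε : ℝ} (hε : 0 < ε)
    (hε1 : ε ≤ 1) {m : ℕ} (hU : UProper G X ε m) :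
    ∃ s₀ : ℝ, 0 < s₀ ∧ ∀ x : X, ∃ (H : Subgroup G) (s : ℝ), s₀ ≤ s ∧ s ≤ 1 ∧
      (∀ h ∈ H, dist x (h • x) ≤ s / 100) ∧ ∀ g, g ∉ H → s ≤ dist x (g • x) := by
  have hpos : ∀ i : ℕ, 0 < ε * (1 / 100) ^ i := fun i => by positivity
  refine ⟨ε * (1 / 100) ^ m, hpos m, fun x => ?_⟩
  have hdec : ∀ i : ℕ, ε * (1 / 100 : ℝ) ^ (i + 1) = ε * (1 / 100) ^ i / 100 := fun i => by
    rw [pow_succ]; ring
  let A : ℕ → Set G := fun i => {g | dist x (g • x) < ε * (1 / 100) ^ i}
  have hA0 : A 0 = {g | dist x (g • x) < ε} := by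
    show {g : G | dist x (g • x) < ε * (1 / 100) ^ 0} = _
    rw [pow_zero, mul_one]
  have hA : ∀ i, A (i + 1) ⊆ A i := by
    intro i g hg
    have hg' : dist x (g • x) < ε * (1 / 100) ^ (i + 1) := hg
    rw [hdec] at hg'
    show dist x (g • x) < ε * (1 / 100) ^ i
    have := hpos i
    linarith
  have h1 : ∀ i, (1 : G) ∈ A i := by
    intro i
    show dist x ((1 : G) • x) < ε * (1 / 100) ^ i
    rw [one_smul, dist_self]
    exact hpos i
  obtain ⟨j, hjm, hj⟩ := exists_eq_succ A hA (fun i => ⟨1, h1 i⟩) (by rw [hA0]; exact (hU x).1)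
    (m := m) (by rw [hA0]; exact (hU x).2)
  refine ⟨{ carrier := A (j + 1)
            mul_mem' := ?_
            one_mem' := h1 _
            inv_mem' := ?_ }, ε * (1 / 100) ^ j, ?_, ?_, ?_, ?_⟩
  · intro a b ha hb
    rw [← hj]
    have ha' : dist x (a • x) < ε * (1 / 100) ^ (j + 1) := ha
    have hb' : dist x (b • x) < ε * (1 / 100) ^ (j + 1) := hb
    rw [hdec] at ha' hb'
    show dist x ((a * b) • x) < ε * (1 / 100) ^ j
    have h2 : dist (a • x) ((a * b) • x) = dist x (b • x) := by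
      rw [mul_smul, isom]
    have h3 := dist_triangle x (a • x) ((a * b) • x)
    have := hpos j
    linarith
  · intro a ha
    have ha' : dist x (a • x) < ε * (1 / 100) ^ (j + 1) := ha
    show dist x (a⁻¹ • x) < ε * (1 / 100) ^ (j + 1)
    rw [← isom a, smul_inv_smul, dist_comm]
    exact ha'
  · have h5 : (1 / 100 : ℝ) ^ m ≤ (1 / 100) ^ j :=
      pow_le_pow_of_le_one (by norm_num) (by norm_num) hjm.le
    exact mul_le_mul_of_nonneg_left h5 hε.le
  · have h5 : (1 / 100 : ℝ) ^ j ≤ 1 := pow_le_one₀ (by norm_num) (by norm_num)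
    calc ε * (1 / 100) ^ j ≤ 1 * 1 := mul_le_mul hε1 h5 (by positivity) (by norm_num)
      _ = 1 := one_mul 1
  · intro h hh
    have hh' : dist x (h • x) < ε * (1 / 100) ^ (j + 1) := hh
    rw [hdec] at hh'
    exact hh'.le
  · intro g hg
    by_contra hcon
    push Not at hcon
    refine hg ?_
    show g ∈ A (j + 1)
    rw [← hj]
    exact hcon

/-- A maximal separated set of representatives. -/
private theorem exists_sep {G X : Type} [Group G] [MetricSpace X] [MulAction G X]
    (isom : ∀ (g : G) (x y : X), dist (g • x) (g • y) = dist x y) {σ : ℝ} (hσ : 0 < σ) :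
    ∃ P : Set X, (∀ p ∈ P, ∀ q ∈ P, p ≠ q → ∀ g : G, σ ≤ dist p (g • q)) ∧
      ∀ w, ∃ p ∈ P, ∃ g : G, dist w (g • p) < σ := by
  let R : X → X → Prop := fun p q => ∀ g : G, σ ≤ dist p (g • q)
  have hRs : ∀ p q, R p q → R q p := by
    intro p q h g
    have h1 := h g⁻¹
    rw [← isom g, smul_inv_smul, dist_comm] at h1
    exact h1
  obtain ⟨P, hP⟩ := zorn_subset {P : Set X | P.Pairwise R} (by
    intro c hc hchain
    refine ⟨⋃₀ c, ?_, fun s hs => subset_sUnion_of_mem hs⟩
    exact (Set.pairwise_sUnion hchain.directedOn).2 fun s hs => hc hs)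
  have hPp : P.Pairwise R := hP.1
  refine ⟨P, fun p hp q hq hpq g => hPp hp hq hpq g, fun w => ?_⟩
  by_contra hcon
  push Not at hcon
  have hw : w ∉ P := by
    intro hw
    have h1 := hcon w hw 1
    rw [one_smul, dist_self] at h1
    linarith
  have h2 : (insert w P).Pairwise R := by
    exact Set.pairwise_insert.2 ⟨hPp, fun b hb _ => ⟨hcon b hb, hRs _ _ (hcon b hb)⟩⟩
  exact hw (hP.2 h2 (subset_insert w P) (mem_insert w P))

/-- The centres of a uniformly proper action, `ε ≤ 1`. -/
private theorem exists_net_aux {G X : Type} [Group G] [MetricSpace X] [MulAction G X]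
    {geo : X → X → ℝ → X}
    (hb : Bicomb X geo) (isom : ∀ (g : G) (x y : X), dist (g • x) (g • y) = dist x y) {M : ℕ}
    (hD : Doubling X M) {ε : ℝ} (hε : 0 < ε) (hε1 : ε ≤ 1) {m : ℕ} (hU : UProper G X ε m) :
    ∃ (ι : Type) (s₀ : ℝ) (A : ℕ), 0 < s₀ ∧ 1 ≤ A ∧ Nonempty (Net G X ι s₀ A) := by
  obtain ⟨s₀, hs₀, hsc⟩ := exists_scale isom hε hε1 hU
  choose H s hs0 hs1 hnear hfar using hsc
  obtain ⟨P, hsep, hcov⟩ := exists_sep (G := G) (X := X) isom (σ := s₀ / 100) (by positivity)
  have hμ : 0 < min ε (s₀ / 100) := lt_min hε (by positivity)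
  obtain ⟨j, hj⟩ := exists_pow_lt_of_lt_one (y := (1 / 2 : ℝ)) (half_pos hμ) (by norm_num)
  have hj2 : 1 / 2 ^ j + 1 / 2 ^ j < min ε (s₀ / 100) := by
    have e : (1 / 2 : ℝ) ^ j = 1 / 2 ^ j := by
      rw [div_pow, one_pow]
    rw [e] at hj
    linarith
  refine ⟨P, s₀, (m + 1) * (M + 1) ^ (1 + j), hs₀, Nat.mul_pos (by omega) (by positivity), ⟨?_⟩⟩
  refine
    { c := fun i => i.1
      H := fun i => H i.1
      s := fun i => s i.1
      s_le := fun i => ⟨hs0 _, hs1 _⟩
      near := fun i => hnear _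
      far := fun i => hfar _
      cover := ?_
      count := ?_ }
  · intro w
    obtain ⟨p, hp, g, hg⟩ := hcov w
    refine ⟨⟨p, hp⟩, g, ?_⟩
    have h1 := hs0 p
    show dist w (g • p) ≤ s p / 100
    linarith
  · intro w k
    obtain ⟨F, hFc, hF⟩ := exists_cov hb hD k j w
    let S : Set (P × G) := {p | dist w (p.2 • (p.1 : X)) ≤ k}
    let Sy : X → Set (P × G) := fun y => {p | dist (p.2 • (p.1 : X)) y ≤ 1 / 2 ^ j}
    -- the fibres
    have hfib : ∀ y, (Sy y).Finite ∧ (Sy y).ncard ≤ m := by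
      intro y
      by_cases hne : (Sy y).Nonempty
      · obtain ⟨⟨i₀, g₀⟩, h₀⟩ := hne
        have h₀' : dist (g₀ • (i₀ : X)) y ≤ 1 / 2 ^ j := h₀
        have hi : ∀ p ∈ Sy y, p.1 = i₀ ∧ dist (i₀ : X) ((g₀⁻¹ * p.2) • (i₀ : X)) < ε := by
          rintro ⟨i, g⟩ hp
          have hp' : dist (g • (i : X)) y ≤ 1 / 2 ^ j := hp
          have h2 : dist (i₀ : X) ((g₀⁻¹ * g) • (i : X)) < min ε (s₀ / 100) := by
            rw [← isom g₀, ← mul_smul, mul_inv_cancel_left]
            have h3 := dist_triangle_right (g₀ • (i₀ : X)) (g • (i : X)) y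
            linarith
          have h4 : (i : X) = i₀ := by
            by_contra h5
            have h6 := hsep i₀ i₀.2 i i.2 (fun h => h5 h.symm) (g₀⁻¹ * g)
            have h7 := h2.trans_le (min_le_right _ _)
            linarith
          rw [h4] at h2
          exact ⟨Subtype.ext h4, h2.trans_le (min_le_left _ _)⟩
        have hinj : Set.InjOn (fun p : P × G => g₀⁻¹ * p.2) (Sy y) := by
          rintro ⟨i, g⟩ hp ⟨i', g'⟩ hp' h
          have h1 : i = i₀ := (hi _ hp).1
          have h2 : i' = i₀ := (hi _ hp').1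
          have h3 : g = g' := mul_left_cancel h
          rw [h1, h2, h3]
        have hmaps : ∀ p ∈ Sy y, g₀⁻¹ * p.2 ∈ {g : G | dist (i₀ : X) (g • (i₀ : X)) < ε} :=
          fun p hp => (hi p hp).2
        refine ⟨?_, ?_⟩
        · exact Set.Finite.of_finite_image ((hU i₀).1.subset (by
            rintro _ ⟨p, hp, rfl⟩
            exact hmaps p hp)) hinj
        · exact (Set.ncard_le_ncard_of_injOn _ hmaps hinj (hU i₀).1).trans (hU i₀).2
      · rw [Set.not_nonempty_iff_eq_empty] at hne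
        rw [hne]
        exact ⟨Set.finite_empty, by simp⟩
    have hSsub : S ⊆ ⋃ y ∈ F, Sy y := by
      rintro p hp
      have hp' : dist w (p.2 • (p.1 : X)) ≤ k := hp
      obtain ⟨y, hy, hyz⟩ := hF (p.2 • (p.1 : X)) (by rw [dist_comm]; exact hp')
      exact Set.mem_biUnion hy hyz
    classical
    have hT : (S : Set (P × G)) ⊆ ↑(F.biUnion fun y => (hfib y).1.toFinset) := by
      refine hSsub.trans ?_
      intro p hp
      simp only [Set.mem_iUnion] at hp
      obtain ⟨y, hy, hpy⟩ := hp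
      simp only [Finset.coe_biUnion, Set.Finite.coe_toFinset, Set.mem_iUnion]
      exact ⟨y, hy, hpy⟩
    refine ⟨(Finset.finite_toSet _).subset hT, ?_⟩
    have h1 : S.ncard ≤ (F.biUnion fun y => (hfib y).1.toFinset).card := by
      rw [← Set.ncard_coe_finset]
      exact Set.ncard_le_ncard hT (Finset.finite_toSet _)
    have h2 : (F.biUnion fun y => (hfib y).1.toFinset).card ≤ F.card * m := by
      refine Finset.card_biUnion_le_card_mul _ _ _ fun y _ => ?_
      rw [← Set.ncard_eq_toFinset_card _ (hfib y).1]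
      exact (hfib y).2
    have h3 : F.card * m ≤ M ^ (k + j) * m := Nat.mul_le_mul_right _ hFc
    have h4 : M ^ (k + j) ≤ ((M + 1) ^ (1 + j)) ^ (k + 1) := by
      rw [← pow_mul]
      refine (Nat.pow_le_pow_left (Nat.le_succ M) _).trans ?_
      refine Nat.pow_le_pow_right (by omega) ?_
      nlinarith [Nat.zero_le (k * j)]
    have h5 : m ≤ (m + 1) ^ (k + 1) := by
      refine (Nat.le_succ m).trans ?_
      exact Nat.le_self_pow (by omega) _
    refine (h1.trans (h2.trans h3)).trans ?_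
    rw [mul_pow, mul_comm ((m + 1) ^ (k + 1))]
    exact Nat.mul_le_mul h4 h5

/-- The centres of a uniformly proper action. -/
theorem exists_net {G X : Type} [Group G] [MetricSpace X] [MulAction G X] {geo : X → X → ℝ → X}
    (hb : Bicomb X geo) (isom : ∀ (g : G) (x y : X), dist (g • x) (g • y) = dist x y) {M : ℕ}
    (hD : Doubling X M) {ε : ℝ} (hε : 0 < ε) {m : ℕ} (hU : UProper G X ε m) :
    ∃ (ι : Type) (s₀ : ℝ) (A : ℕ), 0 < s₀ ∧ 1 ≤ A ∧ Nonempty (Net G X ι s₀ A) := by
  refine exists_net_aux hb isom hD (ε := min ε 1) (lt_min hε one_pos) (min_le_right _ _) (m := m) ?_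
  intro x
  have hsub : {g : G | dist x (g • x) < min ε 1} ⊆ {g : G | dist x (g • x) < ε} :=
    fun g (hg : dist x (g • x) < min ε 1) => hg.trans_le (min_le_left _ _)
  exact ⟨(hU x).1.subset hsub, (Set.ncard_le_ncard hsub (hU x).1).trans (hU x).2⟩

end Pool.Agent.BG
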