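import Pool.Agent.Lib.MP_98022b_bg.Defs
import Pool.Agent.Lib.MP_98022b_gln.ConeDefs

/-!
# Small covers of doubling spaces
-/

set_option autoImplicit false

open Set Filter Topology

namespace Pool.Agent.BG

open Pool.Agent.GLN

theorem doubling_two {X : Type} [MetricSpace X] {M : ℕ} (hD : Doubling X M) (x : X) {r : ℝ}
    (hr : 0 < r) (hr1 : r ≤ 1) : ∃ F : Finset X, F.card ≤ M * M ∧
      ∀ z, dist z x ≤ 2 * r → ∃ y ∈ F, dist z y ≤ r / 2 := by
  classical
  obtain ⟨F, hF, hcov⟩ := hD x r hr hr1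
  have h := fun y : X => hD y (r / 2) (by linarith) (by linarith)
  choose G hG hGcov using h
  refine ⟨F.biUnion G, ?_, fun z hz => ?_⟩
  · exact (Finset.card_biUnion_le_card_mul F G M fun y _ => hG y).trans
      (Nat.mul_le_mul_right _ hF)
  · obtain ⟨y, hy, hzy⟩ := hcov z hz
    obtain ⟨y', hy', hzy'⟩ := hGcov y z (by linarith)
    exact ⟨y', Finset.mem_biUnion.2 ⟨y, hy, hy'⟩, hzy'⟩

theorem smallCovers_of_doubling {X : Type} [MetricSpace X] {M : ℕ} (hD : Doubling X M) :
    ∃ n : ℕ, SmallCovers X n := by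
  refine ⟨M * M, fun ε hε => ?_⟩
  obtain ⟨r, hr⟩ : ∃ r : ℝ, r = min (ε / 8) 1 := ⟨_, rfl⟩
  have hr0 : 0 < r := by rw [hr]; exact lt_min (by linarith) one_pos
  have hr1 : r ≤ 1 := by rw [hr]; exact min_le_right _ _
  have hrε : r ≤ ε / 8 := by rw [hr]; exact min_le_left _ _
  obtain ⟨S, hS⟩ : ∃ S : Set X, Maximal (· ∈ {S : Set X | S.Pairwise fun x y => r < dist x y}) S := by
    refine zorn_subset _ fun c hc hchain => ⟨⋃₀ c, ?_, fun s hs => subset_sUnion_of_mem hs⟩
    rintro x ⟨s, hs, hxs⟩ y ⟨t, ht, hyt⟩ hxy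
    rcases hchain.total hs ht with h | h
    · exact hc ht (h hxs) hyt hxy
    · exact hc hs hxs (h hyt) hxy
  have hsep : S.Pairwise fun x y => r < dist x y := hS.prop
  have hcov : ∀ x, ∃ p ∈ S, dist x p ≤ r := by
    intro x
    by_contra hcon
    push Not at hcon
    have h1 : insert x S ∈ {S : Set X | S.Pairwise fun x y => r < dist x y} := by
      refine hsep.insert fun y hy _ => ⟨hcon y hy, ?_⟩
      rw [dist_comm]
      exact hcon y hy
    have h2 : insert x S ⊆ S := hS.le_of_ge h1 (subset_insert x S)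
    have h3 := hcon x (h2 (mem_insert x S))
    rw [dist_self] at h3
    linarith
  refine ⟨S, fun p => Metric.ball (p : X) (2 * r), fun p => Metric.isOpen_ball, ?_, ?_, ?_⟩
  · refine eq_univ_of_forall fun x => ?_
    obtain ⟨p, hp, hxp⟩ := hcov x
    refine mem_iUnion.2 ⟨⟨p, hp⟩, ?_⟩
    rw [Metric.mem_ball]
    show dist x p < 2 * r
    linarith
  · intro p x hx y hy
    rw [Metric.mem_ball] at hx hy
    have h1 := dist_triangle_right x y (p : X)
    linarith
  · intro x
    obtain ⟨F, hF, hFcov⟩ := doubling_two hD x hr0 hr1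
    have h1 : ∀ p : S, x ∈ Metric.ball (p : X) (2 * r) → ∃ y ∈ F, dist (p : X) y ≤ r / 2 := by
      intro p hp
      rw [Metric.mem_ball, dist_comm] at hp
      exact hFcov p hp.le
    classical
    obtain ⟨g, hg⟩ : ∃ g : S → X, ∀ p : S, x ∈ Metric.ball (p : X) (2 * r) →
        g p ∈ F ∧ dist (p : X) (g p) ≤ r / 2 := by
      refine ⟨fun p => if h : x ∈ Metric.ball (p : X) (2 * r) then (h1 p h).choose else x,
        fun p hp => ?_⟩
      simp only [hp, dif_pos]
      exact (h1 p hp).choose_spec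
    have h2 : {p : S | x ∈ Metric.ball (p : X) (2 * r)}.encard ≤ (F : Set X).encard := by
      refine Set.encard_le_encard_of_injOn (f := g) (fun p hp => (hg p hp).1) ?_
      intro p hp q hq hpq
      by_contra hne
      have h3 := hsep p.2 q.2 fun h => hne (Subtype.ext h)
      have h4 := (hg p hp).2
      have h5 := (hg q hq).2
      rw [← hpq] at h5
      have h6 := dist_triangle_right (p : X) q (g p)
      linarith
    refine h2.trans ?_
    rw [Set.encard_coe_eq_coe_finsetCard]
    refine (Nat.cast_le.2 hF).trans ?_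
    push_cast
    exact le_self_add

end Pool.Agent.BG
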