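import Pool.Agent.Lib.MP_98022b_bg.DiscB
import Pool.Agent.Lib.MP_98022b_bg.NetEx
import Pool.Agent.Lib.MP_98022b_bg.Small
import Pool.Agent.Lib.MP_98022b_td.MemQ
import Pool.Agent.Lib.MP_98022b_cc.MedMain

/-!
# Uniformly proper actions on spaces of bounded geometry
-/

set_option autoImplicit false

open Set Filter Topology

open scoped Pointwise

namespace Pool.Agent.BG

open Pool.Agent.GLN Pool.Agent.FA Pool.Agent.FJ

variable {G X : Type} [Group G] [MetricSpace X] [MulAction G X] {geo : X → X → ℝ → X}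

/-- The number of the elements which move a point by at most `2`. -/
theorem exists_bound (hb : Bicomb X geo)
    (isom : ∀ (g : G) (x y : X), dist (g • x) (g • y) = dist x y) {M : ℕ} (hD : Doubling X M)
    {ε : ℝ} (hε : 0 < ε) {m : ℕ} (hU : UProper G X ε m) :
    ∃ N : ℕ, ∀ x : X, {g : G | dist x (g • x) ≤ 2}.Finite ∧
      {g : G | dist x (g • x) ≤ 2}.ncard ≤ N := by
  classical
  obtain ⟨j, hj⟩ : ∃ j : ℕ, 2 / 2 ^ j < ε := by
    obtain ⟨j, hj⟩ := exists_pow_lt_of_lt_one (show (0 : ℝ) < ε / 2 by positivity)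
      (show (1 / 2 : ℝ) < 1 by norm_num)
    refine ⟨j, ?_⟩
    rw [one_div, inv_pow] at hj
    rw [div_eq_mul_inv]
    linarith
  refine ⟨M ^ (2 + j) * m, fun x => ?_⟩
  obtain ⟨F, hF, hF'⟩ := exists_cov hb hD 2 j x
  obtain ⟨S, hS⟩ : ∃ S : X → Set G, S = fun y => {g : G | dist (g • x) y ≤ 1 / 2 ^ j} :=
    ⟨_, rfl⟩
  have hSf : ∀ y, (S y).Finite ∧ (S y).ncard ≤ m := by
    intro y
    rcases (S y).eq_empty_or_nonempty with h | ⟨g₀, hg₀⟩
    · rw [h]
      simp
    · have hsub : S y ⊆ (fun g => g₀ * g) '' {g : G | dist x (g • x) < ε} := by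
        intro g hg
        refine ⟨g₀⁻¹ * g, ?_, by simp⟩
        rw [hS] at hg hg₀
        show dist x ((g₀⁻¹ * g) • x) < ε
        rw [← isom g₀, ← mul_smul, mul_inv_cancel_left]
        have h1 : dist (g • x) y ≤ 1 / 2 ^ j := hg
        have h2 : dist (g₀ • x) y ≤ 1 / 2 ^ j := hg₀
        have h3 := dist_triangle_right (g₀ • x) (g • x) y
        have h4 : (2 : ℝ) / 2 ^ j = 1 / 2 ^ j + 1 / 2 ^ j := by ring
        linarith
      obtain ⟨h1, h2⟩ := hU x
      refine ⟨(h1.image _).subset hsub, ?_⟩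
      exact (Set.ncard_le_ncard hsub (h1.image _)).trans ((Set.ncard_image_le h1).trans h2)
  have hsub : {g : G | dist x (g • x) ≤ 2} ⊆ ⋃ y ∈ F, S y := by
    intro g hg
    obtain ⟨y, hy, h⟩ := hF' (g • x) (by
      rw [dist_comm]
      push_cast
      exact hg)
    rw [hS]
    exact mem_iUnion₂.2 ⟨y, hy, h⟩
  have hfin : (⋃ y ∈ F, S y).Finite := F.finite_toSet.biUnion fun y _ => (hSf y).1
  refine ⟨hfin.subset hsub, (Set.ncard_le_ncard hsub hfin).trans ?_⟩
  have h1 : (⋃ y ∈ F, S y).ncard ≤ ∑ y ∈ F, (S y).ncard := by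
    have h2 : ∀ F' : Finset X, (⋃ y ∈ F', S y).ncard ≤ ∑ y ∈ F', (S y).ncard := by
      intro F'
      induction F' using Finset.induction_on with
      | empty => simp
      | insert a F' ha ih =>
        rw [Finset.sum_insert ha, Finset.set_biUnion_insert]
        exact (Set.ncard_union_le _ _).trans (Nat.add_le_add_left ih _)
    exact h2 F
  refine h1.trans ((Finset.sum_le_sum fun y _ => (hSf y).2).trans ?_)
  rw [Finset.sum_const, smul_eq_mul]
  exact Nat.mul_le_mul_right _ hF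

/-- The stabilizers of the states are finite groups of bounded order. -/
theorem stab_state (isom : ∀ (g : G) (x y : X), dist (g • x) (g • y) = dist x y) {N : ℕ}
    (hN : ∀ x : X, {g : G | dist x (g • x) ≤ 2}.Finite ∧ {g : G | dist x (g • x) ≤ 2}.ncard ≤ N)
    (H : Subgroup G) (v : State X) (hH : ∀ g ∈ H, (actS isom).toSMul.smul g v = v) :
    Finite H ∧ Nat.card H ≤ N := by
  obtain ⟨x, hx⟩ := v.2.1
  have h1 : ∀ g : H, (g : G) ∈ {g : G | dist x (g • x) ≤ 2} := by
    intro g
    have h2 : (g : G) • v.1 = v.1 := congrArg Subtype.val (hH g g.2)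
    have h3 : (g : G) • x ∈ v.1 := by
      rw [← h2]
      exact Set.smul_mem_smul_set hx
    exact v.2.2 x hx _ h3
  have hinj : Function.Injective fun g : H => (⟨(g : G), h1 g⟩ : {g : G | dist x (g • x) ≤ 2}) := by
    intro a b hab
    exact Subtype.ext (congrArg (fun z : {g : G | dist x (g • x) ≤ 2} => (z : G)) hab)
  have hf : Finite {g : G | dist x (g • x) ≤ 2} := (hN x).1
  exact ⟨Finite.of_injective _ hinj, (Nat.card_le_card_of_injective _ hinj).trans (hN x).2⟩

/-- THE ABSOLUTE THEOREM. A group which acts uniformly properly by isometries on a complete space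
which is doubling at small scales and has an invariant consistent conical geodesic bicombing is in
the class. -/
theorem mem_of_uproper {P : ∀ (G : Type) [Group G], Prop} (hP : IsFJClassT P)
    [CompleteSpace X] [Nonempty X] (hb : Bicomb X geo)
    (isom : ∀ (g : G) (x y : X), dist (g • x) (g • y) = dist x y)
    (geo_smul : ∀ (g : G) (x y : X) t, 0 ≤ t → t ≤ 1 → g • geo x y t = geo (g • x) (g • y) t)
    {M : ℕ} (hD : Doubling X M) {ε : ℝ} (hε : 0 < ε) {m : ℕ} (hU : UProper G X ε m) : P G := by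
  classical
  obtain ⟨o⟩ := ‹Nonempty X›
  obtain ⟨n, hn⟩ := smallCovers_of_doubling hD
  obtain ⟨ι, s₀, A, hs₀, hA, ⟨N⟩⟩ := exists_net hb isom hD hε hU
  obtain ⟨L, hL⟩ := exists_bound hb isom hD hε hU
  let _ := actS isom
  obtain ⟨Δ⟩ := exists_discQ hb isom geo_smul hD hs₀ hA N
  have hfix : ∀ T : Set (State X), (∃ v ∈ T, ∃ w ∈ T, 0 ≤ dS v w) →
      Finite (fixingSubgroup G T) ∧ Nat.card (fixingSubgroup G T) ≤ L := by
    rintro T ⟨v, hv, -⟩
    exact stab_state isom hL _ v fun g hg => (mem_fixingSubgroup_iff G).1 hg v hv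
  refine TD.mem_of_discQ (V := State X) hP hb isom geo_smul hn (dV := dS) ?_ Δ o 0 (L + 1)
    (fun v => ?_) (fun T hfin hmono hfar => ?_) fun T hfin hfar t ht => ?_
  · intro g u v
    unfold dS
    congr 2
    ext r
    constructor
    · rintro ⟨_, ⟨x, hx, rfl⟩, _, ⟨y, hy, rfl⟩, rfl⟩
      exact ⟨x, hx, y, hy, isom g x y⟩
    · rintro ⟨x, hx, y, hy, rfl⟩
      exact ⟨g • x, Set.smul_mem_smul_set hx, g • y, Set.smul_mem_smul_set hy, (isom g x y).symm⟩
  · obtain ⟨h1, -⟩ := stab_state isom hL (MulAction.stabilizer G v) v fun g hg => hg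
    exact hP.toIsFJClass.of_finite
  · obtain ⟨h1, h2⟩ := hfix (T 0) hfar
    exact CCC.exists_eq_of_card (fun i => fixingSubgroup G (T i))
      (fun i => fixingSubgroup_antitone G _ (hmono i)) h1 h2
  · obtain ⟨h1, -⟩ := hfix T hfar
    exact CCC.IsFJClass_sup_zpowers hP.toIsFJClass h1 ht

end Pool.Agent.BG
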