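import Mathlib

/-!
# The parameters
-/

set_option autoImplicit false

open Set Filter Topology

namespace Pool.Agent.BG

/-- the inequality between natural numbers -/
private theorem par_nat {M A m α a c K n j : ℕ} (hM : M ≤ 2 ^ m) (hA : A ≤ 2 ^ α)
    (ha : a = 18 * α + 6) (hj : j = 2 * c + 21 + (2 * a + 1) * n)
    (hK : K = 3 + m * (7 + 2 * (2 * c + 22 + 2 * a)) + 17 * α) (hn : 2 ≤ n) :
    4 * (M ^ (1 + j) * M ^ (5 * n + 1 + j) * (5 * (A ^ (5 * n + 4) + 1) ^ 2) ^ K) *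
        A ^ (10 * n + 7) ≤ (2 ^ (a * n)) ^ K := by
  have h1 : M ^ (1 + j) * M ^ (5 * n + 1 + j) ≤ 2 ^ (m * (5 * n + 2 + 2 * j)) := by
    rw [← pow_add, pow_mul]
    have e : 1 + j + (5 * n + 1 + j) = 5 * n + 2 + 2 * j := by ring
    rw [e]
    exact Nat.pow_le_pow_left hM _
  have h2 : A ^ (5 * n + 4) + 1 ≤ 2 ^ (α * (5 * n + 4) + 1) := by
    have h : A ^ (5 * n + 4) ≤ 2 ^ (α * (5 * n + 4)) := by
      rw [pow_mul]
      exact Nat.pow_le_pow_left hA _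
    have h' : 1 ≤ 2 ^ (α * (5 * n + 4)) := Nat.one_le_two_pow
    rw [pow_succ 2]
    omega
  have h3 : 5 * (A ^ (5 * n + 4) + 1) ^ 2 ≤ 2 ^ (2 * α * (5 * n + 4) + 5) := by
    have h : (A ^ (5 * n + 4) + 1) ^ 2 ≤ (2 ^ (α * (5 * n + 4) + 1)) ^ 2 :=
      Nat.pow_le_pow_left h2 _
    calc 5 * (A ^ (5 * n + 4) + 1) ^ 2 ≤ 2 ^ 3 * (2 ^ (α * (5 * n + 4) + 1)) ^ 2 :=
          Nat.mul_le_mul (by norm_num) h
      _ = 2 ^ (2 * α * (5 * n + 4) + 5) := by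
          rw [← pow_mul, ← pow_add]
          congr 1
          ring
  have h4 : (5 * (A ^ (5 * n + 4) + 1) ^ 2) ^ K ≤ 2 ^ ((2 * α * (5 * n + 4) + 5) * K) := by
    rw [pow_mul]
    exact Nat.pow_le_pow_left h3 _
  have h5 : A ^ (10 * n + 7) ≤ 2 ^ (α * (10 * n + 7)) := by
    rw [pow_mul]
    exact Nat.pow_le_pow_left hA _
  have h6 : 2 + m * (5 * n + 2 + 2 * j) + (2 * α * (5 * n + 4) + 5) * K + α * (10 * n + 7) ≤
      a * n * K := by
    have e1 : 2 + m * (5 * n + 2 + 2 * j) + α * (10 * n + 7) ≤ n * K := by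
      have q1 : 5 * n + 2 + 2 * j ≤ n * (7 + 2 * (2 * c + 22 + 2 * a)) := by
        rw [hj]
        nlinarith [Nat.zero_le c]
      have q2 := Nat.mul_le_mul_left m q1
      have q3 : α * (10 * n + 7) ≤ n * (17 * α) := by nlinarith [Nat.zero_le α]
      have q4 : n * K = n * 3 + m * (n * (7 + 2 * (2 * c + 22 + 2 * a))) + n * (17 * α) := by
        rw [hK]
        ring
      omega
    have e2 : (2 * α * (5 * n + 4) + 5) * K ≤ (18 * α + 5) * n * K := by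
      refine Nat.mul_le_mul_right _ ?_
      nlinarith [Nat.zero_le α]
    have e3 : a * n * K = (18 * α + 5) * n * K + n * K := by
      rw [ha]
      ring
    omega
  calc 4 * (M ^ (1 + j) * M ^ (5 * n + 1 + j) * (5 * (A ^ (5 * n + 4) + 1) ^ 2) ^ K) *
        A ^ (10 * n + 7)
      ≤ 2 ^ 2 * (2 ^ (m * (5 * n + 2 + 2 * j)) * 2 ^ ((2 * α * (5 * n + 4) + 5) * K)) *
        2 ^ (α * (10 * n + 7)) :=
        Nat.mul_le_mul (Nat.mul_le_mul (by norm_num) (Nat.mul_le_mul h1 h4)) h5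
    _ = 2 ^ (2 + m * (5 * n + 2 + 2 * j) + (2 * α * (5 * n + 4) + 5) * K + α * (10 * n + 7)) := by
        rw [← pow_add, ← pow_add, ← pow_add]
        congr 1
        ring
    _ ≤ 2 ^ (a * n * K) := Nat.pow_le_pow_right (by norm_num) h6
    _ = (2 ^ (a * n)) ^ K := by rw [← pow_mul]

/-- The parameters. `J` is the number of the grid points, `1 / 2 ^ j` is the mesh of the net. -/
theorem exists_params (M A : ℕ) (hM : 1 ≤ M) (hA : 1 ≤ A) {s₀ : ℝ} (hs : 0 < s₀) (hs1 : s₀ ≤ 1) :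
    ∃ K B : ℕ, 1 ≤ K ∧ ∀ n : ℕ, 2 ≤ n → ∃ (J j : ℕ) (w δ ε : ℝ), 0 < J ∧ 0 < δ ∧ 0 < ε ∧
      ε ≤ δ ∧ δ ≤ 1 / 100 ∧ 8 * δ ≤ s₀ / 16 ∧ 1 / 2 ^ (n ^ B) ≤ ε ∧ 2 / 2 ^ j ≤ ε ∧
      2 * w ≤ s₀ / (16 * J) ∧ 2 * ε + 5 * δ ≤ w ∧ 4 * ε * (5 * n) ≤ (w - 2 * ε) * δ ∧
      4 * (M ^ (1 + j) * M ^ (5 * n + 1 + j) * (5 * (A ^ (5 * n + 4) + 1) ^ 2) ^ K) *
        A ^ (10 * n + 7) ≤ J ^ K := by
  obtain ⟨m, hm⟩ : ∃ m, M ≤ 2 ^ m := ⟨M, Nat.lt_two_pow_self.le⟩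
  obtain ⟨α, hα⟩ : ∃ α, A ≤ 2 ^ α := ⟨A, Nat.lt_two_pow_self.le⟩
  obtain ⟨c, hc⟩ : ∃ c : ℕ, 1 / 2 ^ c ≤ s₀ := by
    obtain ⟨c, hc⟩ := exists_pow_lt_of_lt_one hs (show (1 / 2 : ℝ) < 1 by norm_num)
    refine ⟨c, ?_⟩
    rw [one_div_pow] at hc
    exact hc.le
  set a := 18 * α + 6 with ha
  refine ⟨3 + m * (7 + 2 * (2 * c + 22 + 2 * a)) + 17 * α, 2 * c + 21 + 2 * a + 1, by omega, ?_⟩
  intro n hn
  set j := 2 * c + 21 + (2 * a + 1) * n with hj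
  have hJ : (1 : ℝ) ≤ 2 ^ (a * n) := one_le_pow₀ (by norm_num)
  have hJ0 : (0 : ℝ) < 2 ^ (a * n) := by positivity
  set w : ℝ := s₀ / (32 * 2 ^ (a * n)) with hw
  set δ : ℝ := w / 10 with hδ
  have hw0 : 0 < w := by positivity
  have hδ0 : 0 < δ := by positivity
  have hwle : w ≤ s₀ / 32 := by
    rw [hw]
    exact div_le_div_of_nonneg_left hs.le (by norm_num) (by linarith)
  have hδ1 : δ ≤ 1 / 100 := by
    rw [hδ]
    linarith
  set d : ℝ := 2 ^ (c + 9 + a * n) with hd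
  have hd0 : 0 < d := by positivity
  have hδd : 1 / d ≤ δ := by
    have e : δ = s₀ / (320 * 2 ^ (a * n)) := by
      rw [hδ, hw]
      ring
    have e2 : 1 / d = (1 / 2 ^ c) / (512 * 2 ^ (a * n)) := by
      rw [hd, pow_add, pow_add]
      field_simp
      norm_num
    rw [e, e2]
    exact div_le_div₀ hs.le hc (by positivity) (by linarith)
  have hn0 : (0 : ℝ) < n := by
    have : 0 < n := by omega
    exact_mod_cast this
  have hn1 : (2 : ℝ) ≤ n := by exact_mod_cast hn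
  have hn2 : (n : ℝ) ≤ 2 ^ n := by exact_mod_cast (Nat.lt_two_pow_self (n := n)).le
  set ε : ℝ := 2 / 2 ^ j with hε
  have hε0 : 0 < ε := by positivity
  have hεe : ε = 1 / (4 * d ^ 2 * 2 ^ n) := by
    have e : (2 : ℝ) ^ j = 8 * d ^ 2 * 2 ^ n := by
      rw [hd, hj, ← pow_mul, show (8 : ℝ) = 2 ^ 3 by norm_num, ← pow_add, ← pow_add]
      congr 1
      ring
    rw [hε, e]
    field_simp
    norm_num
  have key : ε * (4 * n) ≤ δ ^ 2 := by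
    have h1 : (1 / d) ^ 2 ≤ δ ^ 2 := pow_le_pow_left₀ (by positivity) hδd 2
    refine le_trans ?_ h1
    rw [hεe, div_pow, one_pow, one_div_mul_eq_div, div_le_div_iff₀ (by positivity) (by positivity)]
    have : (0 : ℝ) ≤ 4 * d ^ 2 := by positivity
    nlinarith
  have hδ2 : δ ^ 2 ≤ δ := by nlinarith
  have hεδ : ε ≤ δ := by nlinarith
  refine ⟨2 ^ (a * n), j, w, δ, ε, by positivity, hδ0, hε0, hεδ, hδ1, ?_, ?_, le_rfl, ?_, ?_, ?_,
    ?_⟩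
  · rw [hδ]
    linarith
  · have h1 : j ≤ n ^ (2 * c + 21 + 2 * a + 1) + 1 := by
      have q1 : 2 ^ (2 * c + 21 + 2 * a) ≤ n ^ (2 * c + 21 + 2 * a) := Nat.pow_le_pow_left hn _
      have q2 : 2 * c + 21 + 2 * a < 2 ^ (2 * c + 21 + 2 * a) := Nat.lt_two_pow_self
      have q3 : (2 * c + 21 + 2 * a + 1) * n ≤ n ^ (2 * c + 21 + 2 * a) * n :=
        Nat.mul_le_mul_right _ (by omega)
      rw [pow_succ]
      have q4 : (2 * c + 21 + 2 * a + 1) * n = (2 * c + 21) * n + (2 * a + 1) * n := by ring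
      have q5 : (2 * c + 21) * 1 ≤ (2 * c + 21) * n := Nat.mul_le_mul_left _ (by omega)
      omega
    rw [hε, div_le_div_iff₀ (by positivity) (by positivity), one_mul]
    calc (2 : ℝ) ^ j ≤ 2 ^ (n ^ (2 * c + 21 + 2 * a + 1) + 1) :=
          pow_le_pow_right₀ (by norm_num) h1
      _ = 2 * 2 ^ (n ^ (2 * c + 21 + 2 * a + 1)) := by rw [pow_succ, mul_comm]
  · rw [hw]
    push_cast
    apply le_of_eq
    field_simp
    norm_num
  · rw [hδ] at hεδ ⊢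
    linarith
  · have h1 : w = 10 * δ := by
      rw [hδ]
      ring
    rw [h1]
    nlinarith
  · exact par_nat hm hα ha hj rfl hn

end Pool.Agent.BG
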