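import Pool.Agent.Lib.MP_98022b_bg.MemB
import Pool.Agent.Lib.MP_98022b_tl.LineGeo
import Pool.Agent.Lib.MP_98022b_cc.MedMain

/-!
# Uniformly proper actions, relative to a homomorphism
-/

set_option autoImplicit false

open Set Filter Topology

namespace Pool.Agent.BG

open Pool.Agent.GLN Pool.Agent.FA Pool.Agent.FJ Pool.Agent.TD

theorem UProper.of_injective {G H X : Type} [Group G] [Group H] [MetricSpace X] [MulAction G X]
    [MulAction H X] {ε ε' : ℝ} {m : ℕ} (hU : UProper G X ε m) (φ : H →* G)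
    (hφ : Function.Injective φ) (hact : ∀ (h : H) (x : X), h • x = φ h • x) (hε : ε' ≤ ε) :
    UProper H X ε' m := by
  intro x
  obtain ⟨h1, h2⟩ := hU x
  have hmaps : MapsTo φ {h : H | dist x (h • x) < ε'} {g : G | dist x (g • x) < ε} := by
    intro h hh
    rw [mem_ofPred_eq, hact] at hh
    exact hh.trans_le hε
  have hinj : InjOn φ {h : H | dist x (h • x) < ε'} := hφ.injOn
  refine ⟨h1.of_injOn hmaps hinj, ?_⟩
  exact (Set.ncard_le_ncard_of_injOn φ hmaps hinj h1).trans h2

theorem doubling_line {X : Type} [MetricSpace X] {M : ℕ} (hD : Doubling X M) :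
    Doubling (X × ℝ) (M * 2) := by
  classical
  rintro ⟨x, a⟩ r hr hr1
  obtain ⟨F, hF, hcov⟩ := hD x r hr hr1
  refine ⟨F ×ˢ {a - r, a + r}, ?_, ?_⟩
  · rw [Finset.card_product]
    refine Nat.mul_le_mul hF ?_
    exact Finset.card_le_two
  · rintro ⟨z, b⟩ hz
    rw [Prod.dist_eq, max_le_iff] at hz
    obtain ⟨hz1, hz2⟩ := hz
    obtain ⟨y, hy, hyz⟩ := hcov z hz1
    have hz2' : |b - a| ≤ 2 * r := hz2
    rw [abs_le] at hz2'
    rcases le_total b a with hba | hba
    · refine ⟨(y, a - r), ?_, ?_⟩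
      · simp [hy]
      · rw [Prod.dist_eq, max_le_iff]
        refine ⟨hyz, ?_⟩
        show |b - (a - r)| ≤ r
        rw [abs_le]
        constructor <;> linarith
    · refine ⟨(y, a + r), ?_, ?_⟩
      · simp [hy]
      · rw [Prod.dist_eq, max_le_iff]
        refine ⟨hyz, ?_⟩
        show |b - (a + r)| ≤ r
        rw [abs_le]
        constructor <;> linarith

section

variable {P : ∀ (G : Type) [Group G], Prop}

/-- The product with the line. -/
theorem mem_of_uproper_line (hP : IsFJClassT P) {Γ X : Type} [Group Γ] [MetricSpace X]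
    [CompleteSpace X] [Nonempty X] [MulAction Γ X] {geo : X → X → ℝ → X} (hb : Bicomb X geo)
    (isom : ∀ (g : Γ) (x y : X), dist (g • x) (g • y) = dist x y)
    (geo_smul : ∀ (g : Γ) (x y : X) t, 0 ≤ t → t ≤ 1 → g • geo x y t = geo (g • x) (g • y) t)
    {M : ℕ} (hD : Doubling X M) (χ : Γ →* Multiplicative ℤ) {ε : ℝ} (hε : 0 < ε) {m : ℕ}
    (hU : UProper χ.ker X ε m) : P Γ := by
  obtain ⟨c, hc⟩ : ∃ c : Γ → ℤ, ∀ g, c g = (χ g).toAdd := ⟨_, fun g => rfl⟩
  have hc1 : c 1 = 0 := by rw [hc, map_one]; rfl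
  have hcm : ∀ g h, c (g * h) = c g + c h := fun g h => by rw [hc, hc, hc, map_mul]; rfl
  let iR : MulAction Γ ℝ :=
    { smul := fun g a => a + c g
      one_smul := fun a => by
        show a + ((c 1 : ℤ) : ℝ) = a
        rw [hc1, Int.cast_zero, add_zero]
      mul_smul := fun g h a => by
        show a + ((c (g * h) : ℤ) : ℝ) = a + c h + c g
        rw [hcm]
        push_cast
        ring }
  have hr : ∀ (g : Γ) (a : ℝ), g • a = a + c g := fun g a => rfl
  have hker : ∀ g : Γ, g ∈ χ.ker ↔ c g = 0 := by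
    intro g
    rw [MonoidHom.mem_ker, hc]
    exact Iff.rfl
  refine mem_of_uproper hP (bicomb_line hb) (fun g p q => ?_) (fun g p q t h0 h1 => ?_)
    (doubling_line hD) (lt_min hε one_pos) (m := m) fun p => ?_
  · rw [Prod.dist_eq, Prod.dist_eq]
    show max (dist (g • p.1) (g • q.1)) (dist (g • p.2) (g • q.2)) = _
    rw [isom, hr, hr, dist_add_right]
  · refine Prod.ext (geo_smul g p.1 q.1 t h0 h1) ?_
    show g • ((1 - t) * p.2 + t * q.2) = (1 - t) * (g • p.2) + t * (g • q.2)
    rw [hr, hr, hr]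
    ring
  · obtain ⟨h1, h2⟩ := hU p.1
    have hsub : {g : Γ | dist p (g • p) < min ε 1} ⊆
        Subtype.val '' {g : χ.ker | dist p.1 (g • p.1) < ε} := by
      intro g hg
      have hg' : max (dist p.1 (g • p.1)) (dist p.2 (g • p.2)) < min ε 1 := by
        rw [mem_ofPred_eq, Prod.dist_eq] at hg
        exact hg
      rw [max_lt_iff] at hg'
      have h3 : dist p.2 (g • p.2) < 1 := hg'.2.trans_le (min_le_right _ _)
      rw [hr, Real.dist_eq] at h3
      have h4 : |(c g : ℝ)| < 1 := by
        have : p.2 - (p.2 + c g) = -(c g : ℝ) := by ring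
        rwa [this, abs_neg] at h3
      have h5 : c g = 0 := by
        rw [abs_lt] at h4
        obtain ⟨h6, h7⟩ := h4
        have h8 : -1 < c g := by exact_mod_cast h6
        have h9 : c g < 1 := by exact_mod_cast h7
        omega
      exact ⟨⟨g, (hker g).2 h5⟩, hg'.1.trans_le (min_le_left _ _), rfl⟩
    refine ⟨(h1.image _).subset hsub, ?_⟩
    exact (Set.ncard_le_ncard hsub (h1.image _)).trans ((Set.ncard_image_le h1).trans h2)

/-- THE RELATIVE THEOREM. -/
theorem mem_of_uproper_rel (hP : IsFJClassT P) {G X Q : Type}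
    [Group G] [Group Q] [MetricSpace X] [CompleteSpace X] [Nonempty X] [MulAction G X]
    {geo : X → X → ℝ → X} (hb : Bicomb X geo)
    (isom : ∀ (g : G) (x y : X), dist (g • x) (g • y) = dist x y)
    (geo_smul : ∀ (g : G) (x y : X) t, 0 ≤ t → t ≤ 1 → g • geo x y t = geo (g • x) (g • y) t)
    {M : ℕ} (hD : Doubling X M) (f : G →* Q) (hQ : P Q) {ε : ℝ} (hε : 0 < ε) {m : ℕ}
    (hU : UProper f.ker X ε m) : P G := by
  have hP' := hP.toIsFJClass
  have hN : P f.ker := mem_of_uproper hP hb (fun g x y => isom (g : G) x y)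
    (fun g x y t h0 h1 => geo_smul (g : G) x y t h0 h1) hD hε hU
  refine hP.extension f hQ fun q => ?_
  obtain ⟨K, hK⟩ : ∃ K : Subgroup G, K = (Subgroup.zpowers q).comap f := ⟨_, rfl⟩
  rw [← hK]
  have hKm : ∀ g : K, ∃ n : ℤ, q ^ n = f (g : G) := by
    intro g
    have h1 : (g : G) ∈ (Subgroup.zpowers q).comap f := hK ▸ g.2
    exact Subgroup.mem_zpowers_iff.1 (Subgroup.mem_comap.1 h1)
  by_cases hq : IsOfFinOrder q
  · -- elements of finite order
    have : Finite (Subgroup.zpowers q) := hq.finite_zpowers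
    obtain ⟨F, hF⟩ : ∃ F : K →* Subgroup.zpowers q, ∀ g : K,
        ((F g : Subgroup.zpowers q) : Q) = f g :=
      ⟨(f.comp K.subtype).codRestrict (Subgroup.zpowers q) fun g => by
        obtain ⟨n, hn⟩ := hKm g
        exact Subgroup.mem_zpowers_iff.2 ⟨n, hn⟩, fun g => rfl⟩
    refine hP'.of_finite_range F ?_
    refine hP.of_injective ((K.subtype.comp F.ker.subtype).codRestrict f.ker fun g => ?_) ?_ hN
    · have h2 : F g = 1 := g.2
      have h3 := hF (g : K)
      rw [h2] at h3
      exact h3.symm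
    · intro a b hab
      have h1 := congrArg (fun x : f.ker => (x : G)) hab
      exact Subtype.ext (Subtype.ext h1)
  · -- elements of infinite order: product with the line
    obtain ⟨ψ, hψ⟩ : ∃ ψ : Multiplicative ℤ →* Q, ∀ n, ψ n = q ^ n.toAdd :=
      ⟨zpowersHom Q q, fun n => rfl⟩
    have hinj : Function.Injective ψ := by
      rw [injective_iff_map_eq_one]
      intro n hn
      rw [hψ] at hn
      have h1 : n.toAdd = 0 := by
        by_contra h2
        exact hq (isOfFinOrder_iff_zpow_eq_one.2 ⟨n.toAdd, h2, hn⟩)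
      exact Multiplicative.toAdd.injective h1
    obtain ⟨χ, hχ⟩ : ∃ χ : K →* Multiplicative ℤ, ∀ g : K, f (g : G) = ψ (χ g) := by
      let e : Multiplicative ℤ ≃* ψ.range := MonoidHom.ofInjective hinj
      let φ : K →* ψ.range := (f.comp K.subtype).codRestrict ψ.range fun g => by
        obtain ⟨n, hn⟩ := hKm g
        exact ⟨Multiplicative.ofAdd n, by rw [hψ]; exact hn⟩
      refine ⟨e.symm.toMonoidHom.comp φ, fun g => ?_⟩
      have h1 : e (e.symm (φ g)) = φ g := e.apply_symm_apply _
      have h2 : ((e (e.symm (φ g)) : ψ.range) : Q) = f (g : G) := by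
        rw [h1]
        rfl
      rw [← h2]
      rfl
    refine mem_of_uproper_line hP hb (fun (g : K) x y => isom (g : G) x y)
      (fun (g : K) x y t h0 h1 => geo_smul (g : G) x y t h0 h1) hD χ hε (m := m)
      (hU.of_injective ((K.subtype.comp χ.ker.subtype).codRestrict f.ker fun g => ?_)
        (fun a b hab => ?_) (fun _ _ => rfl) le_rfl)
    · rw [MonoidHom.mem_ker]
      show f ((g : K) : G) = 1
      rw [hχ, g.2, map_one]
    · have h1 := congrArg (fun x : f.ker => (x : G)) hab
      exact Subtype.ext (Subtype.ext h1)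

end

end Pool.Agent.BG
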