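import Pool.Agent.Lib.MP_98022b_bg.Cov
import Pool.Agent.Lib.MP_98022b_bg.Fun
import Pool.Agent.Lib.MP_98022b_bg.Bad
import Pool.Agent.Lib.MP_98022b_bg.LLInf
import Pool.Agent.Lib.MP_98022b_bg.Par

/-!
# Thresholds which are good for all windows
-/

set_option autoImplicit false

open Set Filter Topology

namespace Pool.Agent.BG

open Pool.Agent.GLN

section

variable {G X ι : Type} [Group G] [MetricSpace X] [MulAction G X] {s₀ : ℝ} {A : ℕ}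
  {geo : X → X → ℝ → X}

theorem Net.dist_le_F (N : Net G X ι s₀ A)
    (isom : ∀ (g : G) (x y : X), dist (g • x) (g • y) = dist x y) (i : ι) (g : G) (w : X) :
    dist w (g • N.c i) ≤ N.F i (g⁻¹ • w) := by
  have h := N.le_F i (g⁻¹ • w) (one_mem (N.H i))
  rw [one_smul] at h
  rw [← isom g, smul_inv_smul] at h
  exact h

theorem Net.rad_le (N : Net G X ι s₀ A) (hs₀ : 0 < s₀) (i : ι) {t : ℝ} (h0 : 0 ≤ t) (h1 : t ≤ 1) :
    s₀ / 16 ≤ N.Rad i t ∧ N.s i / 16 ≤ N.Rad i t ∧ N.Rad i t ≤ N.s i / 8 ∧ N.Rad i t ≤ 1 / 8 := by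
  obtain ⟨h2, h3⟩ := N.s_le i
  unfold Net.Rad
  have h4 : 0 < N.s i := hs₀.trans_le h2
  refine ⟨?_, ?_, ?_, ?_⟩ <;> nlinarith

/-- A centre with a bad time is near. -/
theorem Net.near_of_bad (N : Net G X ι s₀ A)
    (isom : ∀ (g : G) (x y : X), dist (g • x) (g • y) = dist x y) (hs₀ : 0 < s₀) (i : ι) (g : G)
    (w : X) {t e : ℝ} (h0 : 0 ≤ t) (h1 : t ≤ 1) (he : e ≤ 1)
    (h : |N.F i (g⁻¹ • w) - N.Rad i t| < e) : dist w (g • N.c i) ≤ 2 := by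
  have h2 := N.dist_le_F isom i g w
  have h3 := (N.rad_le hs₀ i h0 h1).2.2.2
  have h4 := (abs_lt.1 h).2
  linarith

/-- Good thresholds are good for the translated window. -/
theorem Net.good_smul (N : Net G X ι s₀ A) {T δ e : ℝ} {γ γ' : ℝ → X} {r : ι → ℝ} (g : G)
    (h : ∀ s ∈ Icc 0 T, γ' s = g • γ s) (hg : N.Good T δ e γ' r) : N.Good T δ e γ r := by
  have key : ∀ s ∈ Icc 0 T, ∀ (i : ι) (g' : G), g'⁻¹ • γ s = (g * g')⁻¹ • γ' s := by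
    intro s hs i g'
    rw [h s hs, mul_inv_rev, mul_smul, inv_smul_smul]
  intro s hs s' hs' i g₁ i' g₂ h1 h2
  rw [key s hs i g₁] at h1
  rw [key s' hs' i' g₂] at h2
  exact hg s hs s' hs' i _ i' _ h1 h2

end

/-- The thresholds of grid numbers. -/
noncomputable def thr {ι : Type} {K J : ℕ} (φ : ι → Fin K → Fin J) (k : Fin K) (i : ι) : ℝ :=
  ((φ i k : ℕ) : ℝ) / J

theorem thr_mem {ι : Type} {K J : ℕ} (φ : ι → Fin K → Fin J) (k : Fin K) (i : ι) :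
    0 ≤ thr φ k i ∧ thr φ k i ≤ 1 := by
  have h1 : ((φ i k : ℕ) : ℝ) ≤ J := by exact_mod_cast (φ i k).2.le
  unfold thr
  refine ⟨by positivity, ?_⟩
  exact div_le_one_of_le₀ h1 (by positivity)

section

variable {G X ι : Type} [Group G] [MetricSpace X] [MulAction G X] {s₀ : ℝ} {A : ℕ}
  {geo : X → X → ℝ → X}

/-- All windows which start near the centre `i` are bad for all the thresholds. -/
def Net.Ev (N : Net G X ι s₀ A) (geo : X → X → ℝ → X) {K J : ℕ} (T δ ε : ℝ) (i : ι)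
    (φ : ι → Fin K → Fin J) : Prop :=
  ∃ z y, dist y (N.c i) ≤ 1 ∧ dist z y ≤ T ∧ ∀ k, ¬ N.Good T δ ε (win geo T z y) (thr φ k)

/-- The near centres. -/
def Net.nb (N : Net G X ι s₀ A) (n : ℕ) (i : ι) : Set (ι × G) :=
  {p | dist (N.c i) (p.2 • N.c p.1) ≤ ((5 * n + 3 : ℕ) : ℝ)}

/-- The support. -/
def Net.sup (N : Net G X ι s₀ A) (n : ℕ) (i : ι) : Set ι := Prod.fst '' N.nb n i

/-- A centre with a bad time in a window is in the support. -/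
theorem Net.mem_nb (N : Net G X ι s₀ A) (hb : Bicomb X geo)
    (isom : ∀ (g : G) (x y : X), dist (g • x) (g • y) = dist x y) (hs₀ : 0 < s₀) {n : ℕ}
    (hn : 0 < n) {i : ι} {z y : X} (hy : dist y (N.c i) ≤ 1) (hz : dist z y ≤ 5 * n) {s : ℝ}
    (hs : s ∈ Icc (0 : ℝ) (5 * n)) {i' : ι} {g : G} {t e : ℝ} (h0 : 0 ≤ t) (h1 : t ≤ 1)
    (he : e ≤ 1) (h : |N.F i' (g⁻¹ • win geo (5 * n) z y s) - N.Rad i' t| < e) :
    (i', g) ∈ N.nb n i := by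
  have hT : (0 : ℝ) < 5 * n := by positivity
  have h2 := N.near_of_bad isom hs₀ i' g _ h0 h1 he h
  have h3 := win_lip hb hT hz (left_mem_Icc.2 hT.le) hs
  rw [win_zero hb, zero_sub, abs_neg, abs_of_nonneg hs.1] at h3
  show dist (N.c i) (g • N.c i') ≤ ((5 * n + 3 : ℕ) : ℝ)
  push_cast
  have h4 := dist_triangle (N.c i) y (win geo (5 * n) z y s)
  have h5 := dist_triangle (N.c i) (win geo (5 * n) z y s) (g • N.c i')
  rw [dist_comm (N.c i) y] at h4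
  linarith [hs.2]

theorem Net.ev_dep (N : Net G X ι s₀ A) (hb : Bicomb X geo)
    (isom : ∀ (g : G) (x y : X), dist (g • x) (g • y) = dist x y) (hs₀ : 0 < s₀) {n : ℕ}
    (hn : 0 < n) {K J : ℕ} {δ ε : ℝ} (hε : ε ≤ 1) (i : ι) (φ ψ : ι → Fin K → Fin J)
    (h : ∀ v ∈ N.sup n i, φ v = ψ v) (hE : N.Ev geo (5 * n) δ ε i φ) :
    N.Ev geo (5 * n) δ ε i ψ := by
  obtain ⟨z, y, hy, hz, hk⟩ := hE
  refine ⟨z, y, hy, hz, fun k hg => hk k ?_⟩
  intro s hs s' hs' i₁ g₁ i₂ g₂ h1 h2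
  have e1 : thr φ k i₁ = thr ψ k i₁ := by
    unfold thr
    rw [h i₁ ⟨_, N.mem_nb hb isom hs₀ hn hy hz hs (thr_mem φ k i₁).1 (thr_mem φ k i₁).2 hε h1, rfl⟩]
  have e2 : thr φ k i₂ = thr ψ k i₂ := by
    unfold thr
    rw [h i₂ ⟨_, N.mem_nb hb isom hs₀ hn hy hz hs' (thr_mem φ k i₂).1 (thr_mem φ k i₂).2 hε h2,
      rfl⟩]
  rw [e1] at h1
  rw [e2] at h2
  exact hg s hs s' hs' i₁ g₁ i₂ g₂ h1 h2

/-- The bad grid numbers of one window. -/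
theorem Net.bad_window (N : Net G X ι s₀ A) (hb : Bicomb X geo)
    (isom : ∀ (g : G) (x y : X), dist (g • x) (g • y) = dist x y) (hs₀ : 0 < s₀) {n : ℕ}
    (hn : 0 < n) {J : ℕ} (hJ : 0 < J) {w δ ε : ℝ} (hδ : 0 < δ) (hε : 0 < ε) (hεδ : ε ≤ δ)
    (hδs : 8 * δ ≤ s₀ / 16) (hw : 2 * w ≤ s₀ / (16 * J)) (hw1 : 2 * ε + 5 * δ ≤ w)
    (hw2 : 4 * ε * (5 * n) ≤ (w - 2 * ε) * δ) (i : ι) (W : Finset ι)
    (hW : N.sup n i ⊆ W) (z y : X) (hz : dist z y ≤ 5 * n) :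
    ∃ B : Finset (W → Fin J), B.card * J ≤ 5 * (A ^ (5 * n + 4) + 1) ^ 2 * J ^ W.card ∧
      ∀ v, v ∉ B → ∀ s ∈ Icc (0 : ℝ) (5 * n), ∀ s' ∈ Icc (0 : ℝ) (5 * n), ∀ (i₁ : ι) (g₁ : G)
        (i₂ : ι) (g₂ : G) (h₁ : (i₁, g₁) ∈ N.nb n i) (h₂ : (i₂, g₂) ∈ N.nb n i),
        |N.F i₁ (g₁⁻¹ • win geo (5 * n) z y s) -
            N.Rad i₁ (((v ⟨i₁, hW ⟨_, h₁, rfl⟩⟩ : ℕ) : ℝ) / J)| < 2 * ε →
        |N.F i₂ (g₂⁻¹ • win geo (5 * n) z y s') -
            N.Rad i₂ (((v ⟨i₂, hW ⟨_, h₂, rfl⟩⟩ : ℕ) : ℝ) / J)| < 2 * ε →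
        |s - s'| ≤ δ ∨ 4 * δ ≤ |s - s'| := by
  classical
  have hT : (0 : ℝ) < 5 * n := by positivity
  have hcount := N.count (N.c i) (5 * n + 3)
  have hfin : (N.nb n i).Finite := hcount.1
  have : Fintype (N.nb n i) := hfin.fintype
  have hcard : Fintype.card (N.nb n i) ≤ A ^ (5 * n + 4) := by
    have h1 := hcount.2
    rw [← Nat.card_eq_fintype_card]
    exact h1
  have hJr : (0 : ℝ) < J := by exact_mod_cast hJ
  obtain ⟨B, hB1, hB2⟩ := bad_count (I := N.nb n i) (V := W) (N := J) (T := 5 * n)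
    (f := fun p s => N.F p.1.1 (p.1.2⁻¹ • win geo (5 * n) z y s))
    (fun p => ⟨p.1.1, hW ⟨_, p.2, rfl⟩⟩) hT.le
    (fun p s hs s' hs' => (N.F_lip _ _ _).trans (by
      rw [isom]
      exact win_lip hb hT hz hs hs'))
    (fun p => N.F_conv hb isom hT p.1.1 p.1.2 z y) hδ (e := 2 * ε) (w := w) (by linarith) hw1
    (by linarith) (fun p x => N.Rad p.1.1 (((x : ℕ) : ℝ) / J))
    (fun p x x' hxx => by
      have h1 : (1 : ℝ) ≤ |((x : ℕ) : ℝ) - ((x' : ℕ) : ℝ)| := by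
        have h2 : ((x : ℕ) : ℤ) - ((x' : ℕ) : ℤ) ≠ 0 := by
          intro h3
          exact hxx (Fin.ext (by omega))
        have h3 : (1 : ℤ) ≤ |((x : ℕ) : ℤ) - ((x' : ℕ) : ℤ)| := Int.one_le_abs h2
        have h4 : ((1 : ℤ) : ℝ) ≤ ((|((x : ℕ) : ℤ) - ((x' : ℕ) : ℤ)| : ℤ) : ℝ) := by
          exact_mod_cast h3
        push_cast at h4
        exact h4
      have h2 : N.Rad p.1.1 (((x : ℕ) : ℝ) / J) - N.Rad p.1.1 (((x' : ℕ) : ℝ) / J) =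
          N.s p.1.1 / (16 * J) * (((x : ℕ) : ℝ) - ((x' : ℕ) : ℝ)) := by
        unfold Net.Rad
        field_simp
        ring
      rw [h2, abs_mul]
      have h3 := (N.s_le p.1.1).1
      have h4 : s₀ / (16 * J) ≤ |N.s p.1.1 / (16 * J)| := by
        rw [abs_of_nonneg (by have := hs₀.le.trans h3; positivity)]
        gcongr
      calc 2 * w ≤ s₀ / (16 * J) := hw
        _ ≤ |N.s p.1.1 / (16 * J)| * 1 := by rw [mul_one]; exact h4
        _ ≤ _ := mul_le_mul_of_nonneg_left h1 (abs_nonneg _))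
    (fun p p' hpp => by
      have h0 : p.1.1 = p'.1.1 := congrArg Subtype.val hpp
      obtain ⟨⟨i₁, g₁⟩, hp⟩ := p
      obtain ⟨⟨i₂, g₂⟩, hp'⟩ := p'
      dsimp only at h0
      subst h0
      rcases N.F_orbit isom i₁ g₁ g₂ with h1 | h1
      · exact Or.inl ⟨funext fun s => h1 _, rfl⟩
      · refine Or.inr fun x s hs s' hs' h2 h3 => ?_
        have h4 := h1 (win geo (5 * n) z y s) (win geo (5 * n) z y s')
        have h5 := win_lip hb hT hz hs hs'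
        have hx0 : (0 : ℝ) ≤ ((x : ℕ) : ℝ) / J := by positivity
        have hx1 : ((x : ℕ) : ℝ) / J ≤ 1 := by
          refine div_le_one_of_le₀ ?_ (by positivity)
          exact_mod_cast x.2.le
        have h6 := (N.rad_le hs₀ i₁ hx0 hx1).2.2.1
        have h7 := (abs_lt.1 h2).2
        have h8 := (abs_lt.1 h3).2
        have h9 := (N.s_le i₁).1
        dsimp only at h7 h8
        linarith)
  refine ⟨B, ?_, fun v hv s hs s' hs' i₁ g₁ i₂ g₂ h₁ h₂ h3 h4 => ?_⟩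
  · rw [Fintype.card_coe] at hB1
    refine hB1.trans ?_
    gcongr
  · exact hB2 v hv s hs s' hs' ⟨(i₁, g₁), h₁⟩ ⟨(i₂, g₂), h₂⟩ h3 h4

/-- The number of the grid maps for which the event occurs. -/
theorem Net.ev_count (N : Net G X ι s₀ A) (hb : Bicomb X geo)
    (isom : ∀ (g : G) (x y : X), dist (g • x) (g • y) = dist x y) {M : ℕ} (hD : Doubling X M)
    (hs₀ : 0 < s₀) {n : ℕ} (hn : 0 < n) {J j : ℕ} (hJ : 0 < J) {w δ ε : ℝ} (hδ : 0 < δ)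
    (hε : 0 < ε) (hεδ : ε ≤ δ) (hδs : 8 * δ ≤ s₀ / 16) (hj : 2 / 2 ^ j ≤ ε) (hε1 : ε ≤ 1)
    (hw : 2 * w ≤ s₀ / (16 * J)) (hw1 : 2 * ε + 5 * δ ≤ w)
    (hw2 : 4 * ε * (5 * n) ≤ (w - 2 * ε) * δ) (K : ℕ) (i : ι) (φ : ι → Fin K → Fin J)
    (W : Finset ι) (hW : N.sup n i ⊆ W) :
    Nat.card {ψ : W → Fin K → Fin J // N.Ev geo (5 * n) δ ε i (ext W φ ψ)} * J ^ K ≤
      M ^ (1 + j) * M ^ (5 * n + 1 + j) * (5 * (A ^ (5 * n + 4) + 1) ^ 2) ^ K *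
        (J ^ K) ^ W.card := by
  classical
  have hT : (0 : ℝ) < 5 * n := by positivity
  obtain ⟨Fy, hFy, hFy'⟩ := exists_cov hb hD 1 j (N.c i)
  obtain ⟨Fz, hFz, hFz'⟩ := exists_cov hb hD (5 * n + 1) j (N.c i)
  choose! B hB1 hB2 using fun (p : X × X) (hz : dist p.1 p.2 ≤ 5 * n) =>
    N.bad_window hb isom hs₀ hn hJ hδ hε hεδ hδs hw hw1 hw2 i W hW p.1 p.2 hz
  -- the window of a class
  set cl : X × X → X × X → Prop := fun ab p =>
    dist p.2 ab.1 ≤ 1 / 2 ^ j ∧ dist p.1 ab.2 ≤ 1 / 2 ^ j ∧ dist p.2 (N.c i) ≤ 1 ∧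
      dist p.1 p.2 ≤ 5 * n with hcl
  set B' : X × X → Finset (W → Fin J) := fun ab =>
    if h : ∃ p, cl ab p then B h.choose else ∅ with hB'
  have hB'c : ∀ ab, (B' ab).card * J ≤ 5 * (A ^ (5 * n + 4) + 1) ^ 2 * J ^ W.card := by
    intro ab
    simp only [hB']
    split_ifs with h
    · exact hB1 _ h.choose_spec.2.2.2
    · simp
  -- the event is contained in the union
  have hsub : ∀ ψ : W → Fin K → Fin J, N.Ev geo (5 * n) δ ε i (ext W φ ψ) →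
      ∃ ab ∈ Fy ×ˢ Fz, ∀ k, (fun v => ψ v k) ∈ B' ab := by
    rintro ψ ⟨z, y, hy, hz, hk⟩
    obtain ⟨a, ha, hya⟩ := hFy' y (by push_cast; exact hy)
    obtain ⟨b, hb', hzb⟩ := hFz' z (by
      push_cast
      have := dist_triangle z y (N.c i)
      linarith)
    refine ⟨(a, b), Finset.mem_product.2 ⟨ha, hb'⟩, fun k => ?_⟩
    have hex : ∃ p, cl (a, b) p := ⟨(z, y), hya, hzb, hy, hz⟩
    simp only [hB', dif_pos hex]
    obtain ⟨p, hp⟩ : ∃ p, p = hex.choose := ⟨_, rfl⟩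
    have hpc : cl (a, b) p := hp ▸ hex.choose_spec
    rw [← hp]
    by_contra hnot
    refine hk k fun s hs s' hs' i₁ g₁ i₂ g₂ h1 h2 => ?_
    have hm1 := N.mem_nb hb isom hs₀ hn hy hz hs (thr_mem _ k i₁).1 (thr_mem _ k i₁).2 hε1 h1
    have hm2 := N.mem_nb hb isom hs₀ hn hy hz hs' (thr_mem _ k i₂).1 (thr_mem _ k i₂).2 hε1 h2
    have hclose : ∀ t ∈ Icc (0 : ℝ) (5 * n), ∀ (i' : ι) (g : G),
        |N.F i' (g⁻¹ • win geo (5 * n) p.1 p.2 t) - N.F i' (g⁻¹ • win geo (5 * n) z y t)| ≤ ε := by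
      intro t ht i' g
      refine (N.F_lip _ _ _).trans ?_
      rw [isom]
      refine (win_close hb hT (η := 2 / 2 ^ j) ?_ ?_ ht).trans hj
      · have h3 := dist_triangle p.1 b z
        rw [dist_comm b z] at h3
        have h4 : (2 : ℝ) / 2 ^ j = 1 / 2 ^ j + 1 / 2 ^ j := by ring
        rw [h4]
        exact h3.trans (add_le_add hpc.2.1 hzb)
      · have h3 := dist_triangle p.2 a y
        rw [dist_comm a y] at h3
        have h4 : (2 : ℝ) / 2 ^ j = 1 / 2 ^ j + 1 / 2 ^ j := by ring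
        rw [h4]
        exact h3.trans (add_le_add hpc.1 hya)
    have hthr : ∀ (i' : ι) (h : i' ∈ W), thr (ext W φ ψ) k i' = ((ψ ⟨i', h⟩ k : ℕ) : ℝ) / J := by
      intro i' h
      unfold thr ext
      rw [dif_pos h]
    have hW1 : i₁ ∈ W := hW ⟨_, hm1, rfl⟩
    have hW2 : i₂ ∈ W := hW ⟨_, hm2, rfl⟩
    rw [hthr i₁ hW1] at h1
    rw [hthr i₂ hW2] at h2
    refine hB2 p hpc.2.2.2 _ hnot s hs s' hs' i₁ g₁ i₂ g₂ hm1 hm2 ?_ ?_
    · have h3 := hclose s hs i₁ g₁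
      have h4 := abs_add_le (N.F i₁ (g₁⁻¹ • win geo (5 * n) p.1 p.2 s) -
        N.F i₁ (g₁⁻¹ • win geo (5 * n) z y s)) (N.F i₁ (g₁⁻¹ • win geo (5 * n) z y s) -
          N.Rad i₁ (((ψ ⟨i₁, hW1⟩ k : ℕ) : ℝ) / J))
      rw [sub_add_sub_cancel] at h4
      exact lt_of_le_of_lt h4 (by linarith)
    · have h3 := hclose s' hs' i₂ g₂
      have h4 := abs_add_le (N.F i₂ (g₂⁻¹ • win geo (5 * n) p.1 p.2 s') -
        N.F i₂ (g₂⁻¹ • win geo (5 * n) z y s')) (N.F i₂ (g₂⁻¹ • win geo (5 * n) z y s') -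
          N.Rad i₂ (((ψ ⟨i₂, hW2⟩ k : ℕ) : ℝ) / J))
      rw [sub_add_sub_cancel] at h4
      exact lt_of_le_of_lt h4 (by linarith)
  -- the count
  have hcount : ∀ ab, (Finset.univ.filter fun ψ : W → Fin K → Fin J =>
      ∀ k, (fun v => ψ v k) ∈ B' ab).card ≤ (B' ab).card ^ K := by
    intro ab
    have h1 : (Fintype.piFinset fun _ : Fin K => B' ab).card = (B' ab).card ^ K := by
      rw [Fintype.card_piFinset]
      simp
    rw [← h1]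
    refine Finset.card_le_card_of_injOn (fun ψ k v => ψ v k) ?_ ?_
    · intro ψ hψ
      have h2 := (Finset.mem_filter.1 hψ).2
      exact Finset.mem_coe.2 (Fintype.mem_piFinset.2 h2)
    · intro ψ _ ψ' _ h
      funext v k
      exact congrFun (congrFun h k) v
  have h1 : Nat.card {ψ : W → Fin K → Fin J // N.Ev geo (5 * n) δ ε i (ext W φ ψ)} ≤
      ∑ ab ∈ Fy ×ˢ Fz, (B' ab).card ^ K := by
    rw [Nat.card_eq_fintype_card, Fintype.card_subtype]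
    refine le_trans (Finset.card_le_card (t := (Fy ×ˢ Fz).biUnion fun ab =>
      Finset.univ.filter fun ψ : W → Fin K → Fin J => ∀ k, (fun v => ψ v k) ∈ B' ab) ?_) ?_
    · intro ψ hψ
      obtain ⟨ab, hab, h⟩ := hsub ψ (Finset.mem_filter.1 hψ).2
      exact Finset.mem_biUnion.2 ⟨ab, hab, Finset.mem_filter.2 ⟨Finset.mem_univ _, h⟩⟩
    · exact Finset.card_biUnion_le.trans (Finset.sum_le_sum fun ab _ => hcount ab)
  have h2 : ∀ ab, (B' ab).card ^ K * J ^ K ≤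
      (5 * (A ^ (5 * n + 4) + 1) ^ 2) ^ K * (J ^ K) ^ W.card := by
    intro ab
    rw [← mul_pow, ← pow_mul, mul_comm K, pow_mul, ← mul_pow]
    exact Nat.pow_le_pow_left (hB'c ab) K
  calc Nat.card {ψ : W → Fin K → Fin J // N.Ev geo (5 * n) δ ε i (ext W φ ψ)} * J ^ K
      ≤ (∑ ab ∈ Fy ×ˢ Fz, (B' ab).card ^ K) * J ^ K := Nat.mul_le_mul_right _ h1
    _ = ∑ ab ∈ Fy ×ˢ Fz, (B' ab).card ^ K * J ^ K := Finset.sum_mul _ _ _
    _ ≤ ∑ _ab ∈ Fy ×ˢ Fz, (5 * (A ^ (5 * n + 4) + 1) ^ 2) ^ K * (J ^ K) ^ W.card :=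
        Finset.sum_le_sum fun ab _ => h2 ab
    _ = (Fy.card * Fz.card) * ((5 * (A ^ (5 * n + 4) + 1) ^ 2) ^ K * (J ^ K) ^ W.card) := by
        rw [Finset.sum_const, Finset.card_product, smul_eq_mul]
    _ ≤ (M ^ (1 + j) * M ^ (5 * n + 1 + j)) *
        ((5 * (A ^ (5 * n + 4) + 1) ^ 2) ^ K * (J ^ K) ^ W.card) :=
        Nat.mul_le_mul_right _ (Nat.mul_le_mul hFy hFz)
    _ = _ := by ring

theorem Net.sup_fin (N : Net G X ι s₀ A) (n : ℕ) (i : ι) : (N.sup n i).Finite :=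
  (N.count (N.c i) (5 * n + 3)).1.image _

/-- The number of the events which are not independent of a given one. -/
theorem Net.dep_count (N : Net G X ι s₀ A)
    (isom : ∀ (g : G) (x y : X), dist (g • x) (g • y) = dist x y) (n : ℕ) (i : ι) :
    {i' | ¬ Disjoint (N.sup n i) (N.sup n i')}.Finite ∧
      {i' | ¬ Disjoint (N.sup n i) (N.sup n i')}.ncard ≤ A ^ (10 * n + 7) := by
  have hsub : {i' | ¬ Disjoint (N.sup n i) (N.sup n i')} ⊆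
      Prod.fst '' {p : ι × G | dist (N.c i) (p.2 • N.c p.1) ≤ ((10 * n + 6 : ℕ) : ℝ)} := by
    intro i' hi'
    obtain ⟨j, ⟨⟨j₁, g⟩, hg, hj₁⟩, ⟨⟨j₂, g'⟩, hg', hj₂⟩⟩ := Set.not_disjoint_iff.1 hi'
    obtain rfl : j₁ = j := hj₁
    obtain rfl : j₂ = j₁ := hj₂
    refine ⟨(i', g * g'⁻¹), ?_, rfl⟩
    show dist (N.c i) ((g * g'⁻¹) • N.c i') ≤ ((10 * n + 6 : ℕ) : ℝ)
    have h1 : dist (N.c i) (g • N.c j₂) ≤ ((5 * n + 3 : ℕ) : ℝ) := hg
    have h2 : dist (N.c i') (g' • N.c j₂) ≤ ((5 * n + 3 : ℕ) : ℝ) := hg'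
    have h3 := dist_triangle (N.c i) (g • N.c j₂) ((g * g'⁻¹) • N.c i')
    rw [mul_smul, isom] at h3
    rw [← isom g'⁻¹, inv_smul_smul] at h2
    rw [mul_smul]
    rw [dist_comm] at h2
    push_cast at h1 h2 ⊢
    linarith
  have hc := N.count (N.c i) (10 * n + 6)
  refine ⟨(hc.1.image _).subset hsub, ?_⟩
  refine (Set.ncard_le_ncard hsub (hc.1.image _)).trans ?_
  exact (Set.ncard_image_le hc.1).trans hc.2

/-- Finitely many thresholds one of which is good for a given window. -/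
theorem exists_thresholds (hb : Bicomb X geo)
    (isom : ∀ (g : G) (x y : X), dist (g • x) (g • y) = dist x y)
    (geo_smul : ∀ (g : G) (x y : X) t, 0 ≤ t → t ≤ 1 → g • geo x y t = geo (g • x) (g • y) t)
    {M : ℕ} (hD : Doubling X M) (hs₀ : 0 < s₀) (hA : 1 ≤ A) (N : Net G X ι s₀ A) :
    ∃ K B : ℕ, ∀ n : ℕ, 2 ≤ n → ∃ (r : Fin K → Thr ι) (δ ε : ℝ), 0 < ε ∧
      1 / 2 ^ (n ^ B) ≤ ε ∧ ε ≤ δ ∧ δ ≤ 1 / 100 ∧
      ∀ z y : X, dist z y ≤ 5 * n → ∃ k, N.Good (5 * n) δ ε (win geo (5 * n) z y) (r k).1 := by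
  rcases isEmpty_or_nonempty X with hX | ⟨⟨x₀⟩⟩
  · refine ⟨0, 3, fun n hn => ⟨fun k => k.elim0, 1 / 100, 1 / 100, by norm_num, ?_, le_rfl,
      le_rfl, fun z => (hX.false z).elim⟩⟩
    refine one_div_le_one_div_of_le (by norm_num) ?_
    have h1 : 8 ≤ n ^ 3 := by
      calc 8 = 2 ^ 3 := by norm_num
        _ ≤ n ^ 3 := Nat.pow_le_pow_left hn 3
    calc (100 : ℝ) ≤ 2 ^ 8 := by norm_num
      _ ≤ 2 ^ (n ^ 3) := pow_le_pow_right₀ (by norm_num) h1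
  have hM : 1 ≤ M := by
    obtain ⟨F, hF, hF'⟩ := hD x₀ 1 one_pos le_rfl
    obtain ⟨y, hy, -⟩ := hF' x₀ (by rw [dist_self]; norm_num)
    exact (Finset.card_pos.2 ⟨y, hy⟩).trans_le hF
  obtain ⟨i₀, -, -⟩ := N.cover x₀
  have hs1 : s₀ ≤ 1 := (N.s_le i₀).1.trans (N.s_le i₀).2
  obtain ⟨K, B, hK, hpar⟩ := exists_params M A hM hA hs₀ hs1
  refine ⟨K, B, fun n hn => ?_⟩
  obtain ⟨J, j, w, δ, ε, hJ, hδ, hε, hεδ, hδ1, hδs, hεB, hj, hw, hw1, hw2, hbig⟩ := hpar n hn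
  have hn0 : 0 < n := by omega
  have hε1 : ε ≤ 1 := by linarith
  have : Nonempty (Fin J) := ⟨⟨0, hJ⟩⟩
  obtain ⟨φ, hφ⟩ := lll_infinite (ι := ι) (V := ι) (κ := Fin K → Fin J)
    (fun i φ => N.Ev geo (5 * n) δ ε i φ) (fun i => N.sup n i) (fun i => N.sup_fin n i)
    (fun i φ ψ h => N.ev_dep hb isom hs₀ hn0 hε1 i φ ψ h)
    (M ^ (1 + j) * M ^ (5 * n + 1 + j) * (5 * (A ^ (5 * n + 4) + 1) ^ 2) ^ K) (J ^ K)
    (A ^ (10 * n + 7)) (by positivity) (Nat.one_le_pow _ _ hA)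
    (fun i φ W hW => by
      have h1 : Nat.card (Fin K → Fin J) = J ^ K := by simp
      rw [h1]
      exact N.ev_count hb isom hD hs₀ hn0 hJ hδ hε hεδ hδs hj hε1 hw hw1 hw2 K i φ W hW)
    (fun i => N.dep_count isom n i) hbig
  refine ⟨fun k => ⟨thr φ k, fun i => thr_mem φ k i⟩, δ, ε, hε, hεB, hεδ, hδ1,
    fun z y hz => ?_⟩
  obtain ⟨i, g, hg⟩ := N.cover y
  have hy' : dist (g⁻¹ • y) (N.c i) ≤ 1 := by
    rw [← isom g, smul_inv_smul]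
    have := (N.s_le i).2
    linarith
  have hz' : dist (g⁻¹ • z) (g⁻¹ • y) ≤ 5 * n := by rw [isom]; exact hz
  have h1 := hφ i
  have h2 : ∃ k, N.Good (5 * n) δ ε (win geo (5 * n) (g⁻¹ • z) (g⁻¹ • y)) (thr φ k) := by
    by_contra hcon
    push Not at hcon
    exact h1 ⟨_, _, hy', hz', hcon⟩
  obtain ⟨k, hk⟩ := h2
  have hT : (0 : ℝ) < 5 * n := by positivity
  exact ⟨k, N.good_smul g⁻¹ (fun s hs => (win_smul hT geo_smul g⁻¹ z y hs).symm) hk⟩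

end

end Pool.Agent.BG
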